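import Pool.Agent.Helper34.FQ.Defs
import Pool.Agent.Helper34.PN.AVG
import Pool.Agent.Helper55.PN_WTS
import Pool.Agent.Helper79.FQ_VW

/-!
The energy gain of a weighted family of blocks (problem MP_08bd45_co).
-/

namespace Pool.Agent.Helper34.FQ

open Finset Pool.Agent.Helper34.PN

theorem lw_subset {α : Type} [LinearOrder α] {U V : Finset α} (h : U ⊆ V) (x : α) :
    lw U x ⊆ lw V x := by
  unfold lw
  exact filter_subset_filter _ h

/-- the expectation of the weight of a random subset -/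
theorem wt_sum_weight {α : Type} [DecidableEq α] (Z : Finset α) (η : ℝ) (D : α → ℝ) :
    ∑ V ∈ Z.powerset, wt Z η V * ∑ x ∈ V, D x = η * ∑ x ∈ Z, D x := by
  have e1 : ∀ V ∈ Z.powerset, wt Z η V * ∑ x ∈ V, D x
      = ∑ x ∈ Z, (if {x} ⊆ V then wt Z η V * D x else 0) := by
    intro V hV
    rw [mem_powerset] at hV
    rw [mul_sum, ← sum_filter]
    refine sum_congr ?_ fun _ _ => rfl
    ext x
    rw [mem_filter, singleton_subset_iff]
    exact ⟨fun h => ⟨hV h, h⟩, fun h => h.2⟩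
  rw [sum_congr rfl e1, sum_comm, mul_sum]
  refine sum_congr rfl fun x hx => ?_
  rw [← sum_filter, ← sum_mul, wt_sum_superset Z {x} (singleton_subset_iff.2 hx) η,
    card_singleton, pow_one]

theorem gainv {Ω α ι : Type} [Fintype Ω] [Nonempty Ω] [LinearOrder α] (s : Ω → α → Fin 3)
    (Z W : Finset α) (D : α → ℝ) (c R : ℝ) (hW : Wd s Z W D c) (hD : ∀ x ∈ Z, 0 ≤ D x)
    (hR : ∑ x ∈ Z, D x ≤ R) (hc : 0 ≤ c)
    (I : Finset ι) (ρ : ι → α) (hρ : ∀ i ∈ I, ρ i ∈ Z) (a : ι → ℝ) (ha : ∀ i ∈ I, 0 ≤ a i)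
    (b : ι → Finset α) (k : ℕ) (hb : ∀ i ∈ I, b i ⊆ Z ∧ (b i).card ≤ k)
    (hA : ∀ x ∈ Z, ∑ i ∈ I.filter (fun i => ρ i = x), a i ≤ D x)
    (κ : α → ℝ) (K0 : ℝ) (hκ0 : ∀ x ∈ Z, 0 ≤ κ x) (hκs : ∑ x ∈ Z, κ x ≤ K0)
    (hκ : ∀ i ∈ I, ∑ j ∈ I.filter (fun j => ρ j = ρ i ∧ ¬ Disjoint (b i) (b j)), a j
      ≤ κ (ρ i))
    (η : ℝ) (h0 : 0 < η) (h1 : η ≤ 1) :
    ∑ i ∈ I, a i * (energy s (ρ i) (lw (W ∪ b i) (ρ i)) - energy s (ρ i) (lw W (ρ i)))
      ≤ (2 * c * η * R + 2 * (1 / η) ^ k * K0) * (Fintype.card Ω : ℝ) := by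
  classical
  set N : ℝ := (Fintype.card Ω : ℝ) with hN
  have hN0 : 0 ≤ N := Nat.cast_nonneg _
  set G : α → Finset α → ℝ := fun x V => energy s x (lw (W ∪ V) x) - energy s x (lw W x)
    with hG
  have hG0 : ∀ x V, 0 ≤ G x V := by
    intro x V
    have := energy_mono s x (lw W x) (lw (W ∪ V) x) (lw_subset subset_union_left x)
    simp only [hG]
    linarith
  have hGN : ∀ x V, G x V ≤ N := by
    intro x V
    have e1 := energy_le s x (lw (W ∪ V) x)
    have e2 := energy_nonneg s x (lw W x)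
    simp only [hG]
    linarith
  have hGm : ∀ x U V, U ⊆ V → G x U ≤ G x V := by
    intro x U V hUV
    have := energy_mono s x (lw (W ∪ U) x) (lw (W ∪ V) x)
      (lw_subset (union_subset_union_right hUV) x)
    simp only [hG]
    linarith
  have hη : 0 ≤ (1 / η) ^ k := by positivity
  have hx : ∀ x ∈ Z, ∑ i ∈ I.filter (fun i => ρ i = x), a i * G x (b i)
      ≤ 2 * D x * (∑ V ∈ Z.powerset, wt Z η V * G x V) + 2 * N * (1 / η) ^ k * κ x := by
    intro x hxZ
    set J := I.filter (fun i => ρ i = x) with hJ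
    have hJI : ∀ i ∈ J, i ∈ I := fun i hi => (mem_filter.1 hi).1
    have hE0 : 0 ≤ ∑ V ∈ Z.powerset, wt Z η V * G x V :=
      sum_nonneg fun V _ => mul_nonneg (wt_nonneg Z η h0.le h1 V) (hG0 x V)
    have hA0 : 0 ≤ ∑ i ∈ J, a i := sum_nonneg fun i hi => ha i (hJI i hi)
    have hDx := hD x hxZ
    have hκx := hκ0 x hxZ
    have hAx := hA x hxZ
    rcases hA0.eq_or_lt with hA1 | hA1
    · have hz : ∀ i ∈ J, a i = 0 := (sum_eq_zero_iff_of_nonneg fun i hi => ha i (hJI i hi)).1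
        hA1.symm
      have : ∑ i ∈ J, a i * G x (b i) = 0 := sum_eq_zero fun i hi => by rw [hz i hi, zero_mul]
      rw [this]
      positivity
    · have hv := vw Z J a b k η h0 h1 (fun i hi => ha i (hJI i hi)) (fun i hi => hb i (hJI i hi))
        (G x) N (hG0 x) (hGN x) (hGm x)
      have hcoll : ∑ i ∈ J, ∑ j ∈ J, (if Disjoint (b i) (b j) then 0 else a i * a j)
          ≤ (∑ i ∈ J, a i) * κ x := by
        rw [sum_mul]
        refine sum_le_sum fun i hi => ?_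
        have hi1 := hJI i hi
        have hi2 : ρ i = x := (mem_filter.1 hi).2
        have e1 : ∑ j ∈ J, (if Disjoint (b i) (b j) then 0 else a i * a j)
            = a i * ∑ j ∈ I.filter (fun j => ρ j = ρ i ∧ ¬ Disjoint (b i) (b j)), a j := by
          rw [mul_sum, hJ, sum_filter, sum_filter]
          refine sum_congr rfl fun j _ => ?_
          rw [hi2]
          by_cases h2 : ρ j = x
          · by_cases h3 : Disjoint (b i) (b j)
            · simp [h2, h3]
            · simp [h2, h3]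
          · simp [h2]
        rw [e1]
        refine mul_le_mul_of_nonneg_left ?_ (ha i hi1)
        have := hκ i hi1
        rwa [hi2] at this ⊢
      have h3 : (∑ i ∈ J, a i) * ∑ i ∈ J, a i * G x (b i)
          ≤ (∑ i ∈ J, a i) * (2 * (∑ i ∈ J, a i) * (∑ V ∈ Z.powerset, wt Z η V * G x V)
            + 2 * N * (1 / η) ^ k * κ x) := by
        have h4 : 2 * N * (1 / η) ^ k *
            ∑ i ∈ J, ∑ j ∈ J, (if Disjoint (b i) (b j) then 0 else a i * a j)
            ≤ 2 * N * (1 / η) ^ k * ((∑ i ∈ J, a i) * κ x) :=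
          mul_le_mul_of_nonneg_left hcoll (by positivity)
        calc (∑ i ∈ J, a i) * ∑ i ∈ J, a i * G x (b i)
            ≤ 2 * (∑ i ∈ J, a i) ^ 2 * ∑ V ∈ Z.powerset, wt Z η V * G x V
              + 2 * N * (1 / η) ^ k *
              ∑ i ∈ J, ∑ j ∈ J, (if Disjoint (b i) (b j) then 0 else a i * a j) := hv
          _ ≤ 2 * (∑ i ∈ J, a i) ^ 2 * ∑ V ∈ Z.powerset, wt Z η V * G x V
              + 2 * N * (1 / η) ^ k * ((∑ i ∈ J, a i) * κ x) := by linarith
          _ = _ := by ring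
      have h5 := le_of_mul_le_mul_left h3 hA1
      refine h5.trans ?_
      have h6 : 2 * (∑ i ∈ J, a i) * (∑ V ∈ Z.powerset, wt Z η V * G x V)
          ≤ 2 * D x * (∑ V ∈ Z.powerset, wt Z η V * G x V) :=
        mul_le_mul_of_nonneg_right (by linarith) hE0
      linarith
  have hsum : ∑ i ∈ I, a i * G (ρ i) (b i)
      = ∑ x ∈ Z, ∑ i ∈ I.filter (fun i => ρ i = x), a i * G x (b i) := by
    rw [← sum_fiberwise_of_maps_to hρ]
    refine sum_congr rfl fun x _ => sum_congr rfl fun i hi => ?_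
    rw [(mem_filter.1 hi).2]
  have hE : ∑ x ∈ Z, 2 * D x * (∑ V ∈ Z.powerset, wt Z η V * G x V)
      ≤ 2 * c * η * R * N := by
    have e1 : ∑ x ∈ Z, 2 * D x * (∑ V ∈ Z.powerset, wt Z η V * G x V)
        = ∑ V ∈ Z.powerset, 2 * (wt Z η V * ∑ x ∈ Z, D x * G x V) := by
      have e2 : ∀ V ∈ Z.powerset, 2 * (wt Z η V * ∑ x ∈ Z, D x * G x V)
          = ∑ x ∈ Z, 2 * (wt Z η V * (D x * G x V)) := by
        intro V _
        rw [mul_sum, mul_sum]
      rw [sum_congr rfl e2, sum_comm]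
      refine sum_congr rfl fun x _ => ?_
      rw [mul_sum]
      refine sum_congr rfl fun V _ => ?_
      ring
    rw [e1]
    have e3 : ∑ V ∈ Z.powerset, 2 * (wt Z η V * ∑ x ∈ Z, D x * G x V)
        ≤ ∑ V ∈ Z.powerset, 2 * c * N * (wt Z η V * ∑ x ∈ V, D x) := by
      refine sum_le_sum fun V hV => ?_
      have e4 := hW.max V (mem_powerset.1 hV)
      have e5 := wt_nonneg Z η h0.le h1 V
      have e6 := mul_le_mul_of_nonneg_left e4 e5
      calc 2 * (wt Z η V * ∑ x ∈ Z, D x * G x V)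
          ≤ 2 * (wt Z η V * (c * (∑ x ∈ V, D x) * N)) := by
            refine mul_le_mul_of_nonneg_left ?_ (by norm_num)
            exact e6
        _ = _ := by ring
    refine e3.trans ?_
    rw [← mul_sum, wt_sum_weight]
    have : 2 * c * N * (η * ∑ x ∈ Z, D x) ≤ 2 * c * N * (η * R) := by
      refine mul_le_mul_of_nonneg_left (mul_le_mul_of_nonneg_left hR h0.le) (by positivity)
    linarith
  calc ∑ i ∈ I, a i * (energy s (ρ i) (lw (W ∪ b i) (ρ i)) - energy s (ρ i) (lw W (ρ i)))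
      = ∑ i ∈ I, a i * G (ρ i) (b i) := rfl
    _ = ∑ x ∈ Z, ∑ i ∈ I.filter (fun i => ρ i = x), a i * G x (b i) := hsum
    _ ≤ ∑ x ∈ Z, (2 * D x * (∑ V ∈ Z.powerset, wt Z η V * G x V)
          + 2 * N * (1 / η) ^ k * κ x) := sum_le_sum hx
    _ = ∑ x ∈ Z, 2 * D x * (∑ V ∈ Z.powerset, wt Z η V * G x V)
          + 2 * N * (1 / η) ^ k * ∑ x ∈ Z, κ x := by rw [sum_add_distrib, ← mul_sum]
    _ ≤ 2 * c * η * R * N + 2 * N * (1 / η) ^ k * K0 := by
        have := mul_le_mul_of_nonneg_left hκs (show 0 ≤ 2 * N * (1 / η) ^ k by positivity)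
        linarith
    _ = (2 * c * η * R + 2 * (1 / η) ^ k * K0) * N := by ring

end Pool.Agent.Helper34.FQ
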