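import Pool.Agent.Helper34.FQ.Defs
import Pool.Agent.Helper34.PN.AVG
import Pool.Agent.Helper19.FQ_GAINV

/-!
The energy gain for pairs of edges with a common vertex (problem MP_08bd45_co).
-/

namespace Pool.Agent.Helper34.FQ

open Finset Pool.Agent.Helper34.PN

/-- the weights of the edges with vertex `v` at position `q'`, normalised -/
theorem gain2_row {α J : Type} [LinearOrder α] [Fintype J] (X : J → ℕ → α) (M : J → ℝ)
    (q' : ℕ) (v : α) :
    ∑ e, (if X e q' = v then M e / dq X M q' v else 0) ≤ 1 := by
  rw [← sum_filter, ← sum_div]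
  exact div_self_le_one _

theorem dq_nonneg {α J : Type} [LinearOrder α] [Fintype J] (X : J → ℕ → α) (M : J → ℝ)
    (hM : ∀ e, 0 ≤ M e) (q' : ℕ) (v : α) : 0 ≤ dq X M q' v :=
  sum_nonneg fun e _ => hM e

theorem mem_pre_lt {α J : Type} [LinearOrder α] [Fintype J]
    {Z : Finset α} {r : ℕ} {ε : ℝ} {X : J → ℕ → α} {M : J → ℝ} {D mx : α → ℝ}
    (hd : Dat Z r ε X M D mx) {q q' : ℕ} (hq : q ≤ q') (hq' : q' < r) {e : J} {z : α}
    (hz : z ∈ pre X q e) : z < X e q' := by
  unfold pre at hz
  obtain ⟨i, hi, rfl⟩ := mem_image.1 hz
  exact hd.mono e i q' (lt_of_lt_of_le (mem_range.1 hi) hq) hq'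

theorem pre_mono {α J : Type} [DecidableEq α] (X : J → ℕ → α) {q q' : ℕ} (h : q ≤ q') (e : J) :
    pre X q e ⊆ pre X q' e := by
  unfold pre
  exact image_subset_image (range_subset_range.2 h)

theorem mem_pre_self {α J : Type} [DecidableEq α] (X : J → ℕ → α) {q r : ℕ} (h : q < r)
    (e : J) : X e q ∈ pre X r e := by
  unfold pre
  exact mem_image_of_mem _ (mem_range.2 h)

theorem gain2_pair {α J : Type} [LinearOrder α] [Fintype J]
    {Z : Finset α} {r : ℕ} {ε : ℝ} {X : J → ℕ → α} {M : J → ℝ} {D mx : α → ℝ}
    (hd : Dat Z r ε X M D mx) (q q' : ℕ) (hq : q < q') (hq' : q' < r) (x z : α)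
    (hxz : x ≠ z) :
    ∑ g, ∑ g', (if (X g q' = X g' q' ∧ X g' q < X g q) ∧ X g q = x ∧
        (z ∈ pre X q g ∨ z ∈ pre X (q + 1) g') then
          M g * M g' / dq X M q' (X g q') else 0)
      ≤ mx x + ∑ g, (if X g q = x then M g * mx (X g q') / dq X M q' (X g q') else 0) := by
  have hrow : ∀ g : J, ∑ g', (if (X g q' = X g' q' ∧ X g' q < X g q) ∧ X g q = x ∧
        (z ∈ pre X q g ∨ z ∈ pre X (q + 1) g') then
          M g * M g' / dq X M q' (X g q') else 0)
      ≤ (if x ∈ pre X r g ∧ z ∈ pre X r g then M g else 0)
        + (if X g q = x then M g * mx (X g q') / dq X M q' (X g q') else 0) := by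
    intro g
    have hdq := dq_nonneg X M hd.M0 q' (X g q')
    by_cases hx : X g q = x
    · have h1 : ∑ g', (if (X g q' = X g' q' ∧ X g' q < X g q) ∧ X g q = x ∧
            (z ∈ pre X q g ∨ z ∈ pre X (q + 1) g') then
              M g * M g' / dq X M q' (X g q') else 0)
          ≤ ∑ g', ((if x ∈ pre X r g ∧ z ∈ pre X r g then
              M g * (if X g' q' = X g q' then M g' / dq X M q' (X g q') else 0) else 0)
            + M g / dq X M q' (X g q') *
              (if X g' q' = X g q' ∧ z ∈ pre X (q + 1) g' then M g' else 0)) := by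
        refine sum_le_sum fun g' _ => ?_
        have hM := hd.M0 g
        have hM' := hd.M0 g'
        have hn1 : 0 ≤ (if x ∈ pre X r g ∧ z ∈ pre X r g then
              M g * (if X g' q' = X g q' then M g' / dq X M q' (X g q') else 0) else 0) := by
          split_ifs <;> positivity
        have hn2 : 0 ≤ M g / dq X M q' (X g q') *
              (if X g' q' = X g q' ∧ z ∈ pre X (q + 1) g' then M g' else 0) := by
          split_ifs <;> positivity
        by_cases hc1 : (X g q' = X g' q' ∧ X g' q < X g q) ∧ X g q = x ∧
            (z ∈ pre X q g ∨ z ∈ pre X (q + 1) g')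
        · rw [if_pos hc1]
          obtain ⟨⟨hc2, hc3⟩, hc4, hc5⟩ := hc1
          rcases hc5 with hc5 | hc5
          · have h3 : x ∈ pre X r g ∧ z ∈ pre X r g := by
              refine ⟨?_, pre_mono X (by omega) g hc5⟩
              rw [← hx]
              exact mem_pre_self X (by omega) g
            rw [if_pos h3, if_pos hc2.symm] at *
            have : M g * M g' / dq X M q' (X g q') = M g * (M g' / dq X M q' (X g q')) := by
              ring
            rw [this]
            linarith
          · rw [if_pos (show X g' q' = X g q' ∧ z ∈ pre X (q + 1) g' from ⟨hc2.symm, hc5⟩)] at hn2 ⊢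
            have : M g * M g' / dq X M q' (X g q') = M g / dq X M q' (X g q') * M g' := by
              ring
            rw [this]
            linarith
        · rw [if_neg hc1]
          linarith
      refine h1.trans ?_
      rw [sum_add_distrib]
      refine add_le_add ?_ ?_
      · split_ifs with h3
        · rw [← mul_sum]
          have := gain2_row X M q' (X g q')
          have hM := hd.M0 g
          nlinarith
        · simp
      · rw [if_pos hx, ← mul_sum]
        have h4 : ∑ g', (if X g' q' = X g q' ∧ z ∈ pre X (q + 1) g' then M g' else 0)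
            ≤ mx (X g q') := by
          by_cases hz : X g q' = z
          · have h5 : ∀ g' ∈ (univ : Finset J),
                (if X g' q' = X g q' ∧ z ∈ pre X (q + 1) g' then M g' else 0) = 0 := by
              intro g' _
              rw [if_neg]
              rintro ⟨h6, h7⟩
              have h8 := mem_pre_lt hd (show q + 1 ≤ q' by omega) hq' h7
              rw [h6, hz] at h8
              exact lt_irrefl _ h8
            rw [sum_congr rfl h5, sum_const_zero]
            exact hd.mx0 _
          · refine le_trans ?_ (hd.mxe (X g q') z hz)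
            rw [← sum_filter]
            refine sum_le_sum_of_subset_of_nonneg ?_ fun e _ _ => hd.M0 e
            intro g' hg'
            rw [mem_filter] at hg' ⊢
            refine ⟨mem_univ _, ?_, pre_mono X (by omega) g' hg'.2.2⟩
            rw [← hg'.2.1]
            exact mem_pre_self X hq' g'
        have hM := hd.M0 g
        calc M g / dq X M q' (X g q') *
              ∑ g', (if X g' q' = X g q' ∧ z ∈ pre X (q + 1) g' then M g' else 0)
            ≤ M g / dq X M q' (X g q') * mx (X g q') :=
              mul_le_mul_of_nonneg_left h4 (by positivity)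
          _ = M g * mx (X g q') / dq X M q' (X g q') := by ring
    · have h1 : ∀ g' ∈ (univ : Finset J), (if (X g q' = X g' q' ∧ X g' q < X g q) ∧ X g q = x ∧
            (z ∈ pre X q g ∨ z ∈ pre X (q + 1) g') then
              M g * M g' / dq X M q' (X g q') else 0) = 0 := by
        intro g' _
        rw [if_neg]
        exact fun h => hx h.2.1
      rw [sum_congr rfl h1, sum_const_zero, if_neg hx, add_zero]
      split_ifs
      · exact hd.M0 g
      · exact le_rfl
  refine (sum_le_sum fun g _ => hrow g).trans ?_
  rw [sum_add_distrib, ← sum_filter]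
  exact add_le_add (hd.mxe x z hxz) le_rfl

theorem gain2 {Ω α J : Type} [Fintype Ω] [Nonempty Ω] [LinearOrder α] [Fintype J]
    {s : Ω → α → Fin 3} {Z W : Finset α} {r : ℕ} {ε c : ℝ} {X : J → ℕ → α} {M : J → ℝ}
    {D mx : α → ℝ} (hd : Dat Z r ε X M D mx) (hW : Wd s Z W D c) (hc : 0 ≤ c) (η : ℝ)
    (h0 : 0 < η) (h1 : η ≤ 1) (q q' : ℕ) (hq : q < q') (hq' : q' < r) :
    ∑ e, ∑ e', (if X e q' = X e' q' ∧ X e' q < X e q then
        M e * M e' / dq X M q' (X e q') *
          (energy s (X e q) (lw (W ∪ (pre X q e ∪ pre X (q + 1) e')) (X e q))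
            - energy s (X e q) (lw W (X e q))) else 0)
      ≤ (2 * c * η * r + 2 * (1 / η) ^ (2 * r) * (4 * r * ε)) * (Fintype.card Ω : ℝ) := by
  classical
  set I : Finset (J × J) := univ.filter (fun p : J × J =>
    X p.1 q' = X p.2 q' ∧ X p.2 q < X p.1 q) with hI
  have hMM : ∀ p : J × J, 0 ≤ M p.1 * M p.2 / dq X M q' (X p.1 q') := by
    intro p
    have := hd.M0 p.1
    have := hd.M0 p.2
    have := dq_nonneg X M hd.M0 q' (X p.1 q')
    positivity
  have hdn : ∀ v, 0 ≤ dq X M q' v := dq_nonneg X M hd.M0 q'
  set K : α → ℝ := fun x => ∑ g, (if X g q = x then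
    M g * mx (X g q') / dq X M q' (X g q') else 0) with hK
  have hK0 : ∀ x, 0 ≤ K x := by
    intro x
    refine sum_nonneg fun g _ => ?_
    have := hd.M0 g
    have := hd.mx0 (X g q')
    have := hdn (X g q')
    split_ifs <;> positivity
  have hKs : ∑ x ∈ Z, K x ≤ ε := by
    have e1 : ∑ x ∈ Z, K x = ∑ g, M g * mx (X g q') / dq X M q' (X g q') := by
      rw [hK]
      simp only
      rw [sum_comm]
      refine sum_congr rfl fun g _ => ?_
      rw [sum_ite_eq, if_pos (hd.mem g q (by omega))]
    have e2 : ∑ g, M g * mx (X g q') / dq X M q' (X g q')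
        = ∑ v ∈ Z, mx v * ∑ g, (if X g q' = v then M g / dq X M q' v else 0) := by
      have e3 : ∀ v ∈ Z, mx v * ∑ g, (if X g q' = v then M g / dq X M q' v else 0)
          = ∑ g, (if X g q' = v then M g * mx v / dq X M q' v else 0) := by
        intro v _
        rw [mul_sum]
        refine sum_congr rfl fun g _ => ?_
        split_ifs
        · ring
        · ring
      rw [sum_congr rfl e3, sum_comm]
      refine sum_congr rfl fun g _ => ?_
      rw [sum_ite_eq, if_pos (hd.mem g q' hq')]
    rw [e1, e2]
    refine le_trans ?_ hd.mxs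
    refine sum_le_sum fun v _ => ?_
    have := gain2_row X M q' v
    have := hd.mx0 v
    nlinarith
  have hr1 : (0 : ℝ) ≤ r := Nat.cast_nonneg r
  have key := gainv s Z W D c (r : ℝ) hW (fun x _ => hd.D0 x) hd.Ds hc I
    (fun p => X p.1 q) (fun p _ => hd.mem p.1 q (by omega))
    (fun p => M p.1 * M p.2 / dq X M q' (X p.1 q')) (fun p _ => hMM p)
    (fun p => pre X q p.1 ∪ pre X (q + 1) p.2) (2 * r) ?_ ?_
    (fun x => 2 * r * (mx x + K x)) (4 * r * ε) ?_ ?_ ?_ η h0 h1
  · refine le_trans (le_of_eq ?_) key
    rw [hI, sum_filter, Fintype.sum_prod_type]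
  · intro p _
    refine ⟨?_, ?_⟩
    · intro y hy
      rw [mem_union] at hy
      unfold pre at hy
      rcases hy with hy | hy
      · obtain ⟨i, hi, rfl⟩ := mem_image.1 hy
        rw [mem_range] at hi
        exact hd.mem p.1 i (by omega)
      · obtain ⟨i, hi, rfl⟩ := mem_image.1 hy
        rw [mem_range] at hi
        exact hd.mem p.2 i (by omega)
    · have c1 : (pre X q p.1).card ≤ q := by
        unfold pre
        exact card_image_le.trans (by rw [card_range])
      have c2 : (pre X (q + 1) p.2).card ≤ q + 1 := by
        unfold pre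
        exact card_image_le.trans (by rw [card_range])
      have c3 := card_union_le (pre X q p.1) (pre X (q + 1) p.2)
      omega
  · intro x _
    refine le_trans ?_ (hd.De x)
    rw [hI, filter_filter, sum_filter, Fintype.sum_prod_type, sum_filter]
    refine sum_le_sum fun e _ => ?_
    by_cases hx : X e q = x
    · have hm : x ∈ pre X r e := by
        rw [← hx]
        exact mem_pre_self X (by omega) e
      rw [if_pos hm]
      calc ∑ e', (if (X e q' = X e' q' ∧ X e' q < X e q) ∧ X e q = x then
              M e * M e' / dq X M q' (X e q') else 0)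
          ≤ ∑ e', M e * (if X e' q' = X e q' then M e' / dq X M q' (X e q') else 0) := by
            refine sum_le_sum fun e' _ => ?_
            have hM := hd.M0 e
            have hM' := hd.M0 e'
            have hv := hdn (X e q')
            split_ifs with c1 c2 c2
            · exact le_of_eq (by ring)
            · exact absurd c1.1.1.symm c2
            · positivity
            · simp
        _ ≤ M e := by
            rw [← mul_sum]
            have := gain2_row X M q' (X e q')
            have := hd.M0 e
            nlinarith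
    · have hz : ∀ e' ∈ (univ : Finset J),
          (if (X e q' = X e' q' ∧ X e' q < X e q) ∧ X e q = x then
              M e * M e' / dq X M q' (X e q') else 0) = 0 := by
        intro e' _
        rw [if_neg]
        exact fun h => hx h.2
      rw [sum_congr rfl hz, sum_const_zero]
      split_ifs
      · exact hd.M0 e
      · exact le_rfl
  · intro x _
    have := hd.mx0 x
    have := hK0 x
    positivity
  · rw [← mul_sum, sum_add_distrib]
    have := hd.mxs
    nlinarith
  · intro p hp
    have hp' : X p.1 q' = X p.2 q' ∧ X p.2 q < X p.1 q := by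
      rw [hI, mem_filter] at hp
      exact hp.2
    set x := X p.1 q with hx
    set B := pre X q p.1 ∪ pre X (q + 1) p.2 with hB
    have hBx : ∀ z ∈ B, x ≠ z := by
      intro z hz
      rw [hB, mem_union] at hz
      rcases hz with hz | hz
      · exact (mem_pre_lt hd le_rfl (by omega) hz).ne'
      · unfold pre at hz
        obtain ⟨i, hi, rfl⟩ := mem_image.1 hz
        rw [mem_range] at hi
        have h2 : X p.2 i ≤ X p.2 q := by
          rcases Nat.lt_or_ge i q with h3 | h3
          · exact (hd.mono p.2 i q h3 (by omega)).le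
          · have : i = q := by omega
            rw [this]
        exact (lt_of_le_of_lt h2 hp'.2).ne'
    have hcard : (B.card : ℝ) ≤ 2 * r := by
      have c1 : (pre X q p.1).card ≤ q := by
        unfold pre
        exact card_image_le.trans (by rw [card_range])
      have c2 : (pre X (q + 1) p.2).card ≤ q + 1 := by
        unfold pre
        exact card_image_le.trans (by rw [card_range])
      have c3 := card_union_le (pre X q p.1) (pre X (q + 1) p.2)
      have c4 : B.card ≤ 2 * r := by
        rw [hB]
        omega
      exact_mod_cast c4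
    calc ∑ j ∈ I.filter (fun j => X j.1 q = x ∧
            ¬ Disjoint B (pre X q j.1 ∪ pre X (q + 1) j.2)),
            M j.1 * M j.2 / dq X M q' (X j.1 q')
        ≤ ∑ z ∈ B, ∑ g, ∑ g', (if (X g q' = X g' q' ∧ X g' q < X g q) ∧ X g q = x ∧
            (z ∈ pre X q g ∨ z ∈ pre X (q + 1) g') then
              M g * M g' / dq X M q' (X g q') else 0) := by
          rw [hI, filter_filter, sum_filter]
          have hsw : ∑ z ∈ B, ∑ g, ∑ g',
              (if (X g q' = X g' q' ∧ X g' q < X g q) ∧ X g q = x ∧
              (z ∈ pre X q g ∨ z ∈ pre X (q + 1) g') then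
                M g * M g' / dq X M q' (X g q') else 0)
              = ∑ j : J × J, ∑ z ∈ B,
              (if (X j.1 q' = X j.2 q' ∧ X j.2 q < X j.1 q) ∧ X j.1 q = x ∧
              (z ∈ pre X q j.1 ∨ z ∈ pre X (q + 1) j.2) then
                M j.1 * M j.2 / dq X M q' (X j.1 q') else 0) := by
            rw [sum_comm (s := (univ : Finset (J × J)))]
            refine sum_congr rfl fun z _ => ?_
            rw [Fintype.sum_prod_type]
          rw [hsw]
          refine sum_le_sum fun j _ => ?_
          have hn : ∀ z ∈ B, 0 ≤ (if (X j.1 q' = X j.2 q' ∧ X j.2 q < X j.1 q) ∧ X j.1 q = x ∧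
              (z ∈ pre X q j.1 ∨ z ∈ pre X (q + 1) j.2) then
                M j.1 * M j.2 / dq X M q' (X j.1 q') else 0) := by
            intro z _
            split_ifs
            · exact hMM j
            · exact le_rfl
          by_cases c1 : (X j.1 q' = X j.2 q' ∧ X j.2 q < X j.1 q) ∧ X j.1 q = x ∧
              ¬ Disjoint B (pre X q j.1 ∪ pre X (q + 1) j.2)
          · rw [if_pos c1]
            obtain ⟨c2, c3, c4⟩ := c1
            rw [not_disjoint_iff] at c4
            obtain ⟨z, hz1, hz2⟩ := c4
            rw [mem_union] at hz2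
            refine le_trans (le_of_eq ?_) (single_le_sum hn hz1)
            rw [if_pos ⟨c2, c3, hz2⟩]
          · rw [if_neg c1]
            exact sum_nonneg hn
      _ ≤ ∑ z ∈ B, (mx x + K x) := by
          refine sum_le_sum fun z hz => ?_
          exact gain2_pair hd q q' hq hq' x z (hBx z hz)
      _ = (B.card : ℝ) * (mx x + K x) := by
          rw [sum_const, nsmul_eq_mul]
      _ ≤ 2 * r * (mx x + K x) := by
          refine mul_le_mul_of_nonneg_right hcard ?_
          have := hd.mx0 x
          have := hK0 x
          linarith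

end Pool.Agent.Helper34.FQ
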