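import Pool.Agent.Helper34.FQ.Defs
import Pool.Agent.Helper55.PN_WTS

/-!
The trace of a random set on a subset (problem MP_08bd45_co).
-/

namespace Pool.Agent.Helper34.FQ

open Finset Pool.Agent.Helper34.PN

theorem wt_marg {α : Type} [DecidableEq α] (X E : Finset α) (hE : E ⊆ X) (p : ℝ)
    (F : Finset α → ℝ) :
    ∑ T ∈ X.powerset, wt X p T * F (T ∩ E) = ∑ T ∈ E.powerset, wt E p T * F T := by
  rw [← sum_fiberwise_of_maps_to (s := X.powerset) (t := E.powerset) (g := fun T => T ∩ E)
    (fun T _ => mem_powerset.2 inter_subset_right)]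
  refine sum_congr rfl fun e he => ?_
  rw [mem_powerset] at he
  have h1 : ∑ T ∈ X.powerset.filter (fun T => T ∩ E = e), wt X p T * F (T ∩ E)
      = (∑ T ∈ X.powerset.filter (fun T => T ∩ E = e), wt X p T) * F e := by
    rw [sum_mul]
    refine sum_congr rfl fun T hT => ?_
    rw [(mem_filter.1 hT).2]
  rw [h1, wt_sum_trace X E e hE he p]
  rfl

end Pool.Agent.Helper34.FQ
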