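import Pool.Agent.Helper34.FQ.Defs
import Pool.Agent.Helper55.PN_WTS
import Pool.Agent.Helper27.PN_SAUER
import Pool.Agent.Helper19.FQ_MARG
import Pool.Agent.Helper62.FQ_MOM
import Pool.Agent.Helper62.FQ_DSB

/-!
A random set meets all large traces (problem MP_08bd45_co).
-/

namespace Pool.Agent.Helper34.FQ

open Finset Pool.Agent.Helper34.PN

theorem netp (m : ℕ) (hm : 1 ≤ m) (σ δ : ℝ) (hσ : 0 < σ) (hδ : 0 < δ) :
    ∃ (l s0 : ℕ), 1 ≤ l ∧ l ≤ s0 ∧ ∀ (α : Type) [DecidableEq α] (X : Finset α)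
      (H : Finset (Finset α)) (s : ℕ), s0 ≤ s → Good X H m →
      ∀ E : Finset α, E ⊆ X → s ≤ E.card → E.card ≤ 2 * s →
        ∑ T ∈ X.powerset.filter
            (fun T => ∃ S ∈ H, σ * s ≤ ((S ∩ E).card : ℝ) ∧ Disjoint (S ∩ E) T),
          wt X ((l : ℝ) / s) T ≤ δ := by
  obtain ⟨K, hK, hmom⟩ := wt_moment (2 * m - 2) (σ / 16) (by positivity)
  obtain ⟨l, hl⟩ := exists_nat_ge (8 / σ + 4 * K / (0.09 * σ * δ) + 1)
  have hq1 : 0 < 8 / σ := by positivity
  have hq2 : 0 < 4 * K / (0.09 * σ * δ) := by positivity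
  have hl1 : (1 : ℝ) ≤ l := by linarith
  have hl8 : 8 ≤ σ * l := by
    have : 8 / σ ≤ l := by linarith
    rw [div_le_iff₀ hσ] at this
    linarith
  have hlK : 4 * K ≤ δ * (0.09 * (σ * l)) := by
    have : 4 * K / (0.09 * σ * δ) ≤ l := by linarith
    rw [div_le_iff₀ (by positivity)] at this
    linarith
  refine ⟨l, 4 * l, by exact_mod_cast hl1, by omega, ?_⟩
  intro α _ X H s hs hG E hE hE1 hE2
  have hsl : 4 * (l : ℝ) ≤ s := by exact_mod_cast hs
  have hs0 : (0 : ℝ) < s := by linarith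
  set p : ℝ := (l : ℝ) / s with hp
  have hp0 : 0 < p := by positivity
  have hp1 : p ≤ 1 / 4 := by
    rw [hp, div_le_iff₀ hs0]
    linarith
  have hps : p * s = l := by
    rw [hp]
    field_simp
  set C : Finset (Finset α) :=
    (H.filter (fun S => σ * s ≤ ((S ∩ E).card : ℝ))).image (fun S => S ∩ E) with hC
  set h : ℕ := ⌊σ * l / 2⌋₊ with hh
  have hh1 : (h : ℝ) ≤ σ * l / 2 := Nat.floor_le (by positivity)
  have hh2 : σ * l / 2 - 1 < h := Nat.sub_one_lt_floor _
  have hCE : ∀ S ∈ C, S ⊆ E := by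
    intro S hS
    obtain ⟨S', _, rfl⟩ := mem_image.1 hS
    exact inter_subset_right
  have hCp : ∀ S ∈ C, σ * l ≤ (S.card : ℝ) * p := by
    intro S hS
    obtain ⟨S', hS', rfl⟩ := mem_image.1 hS
    have h1 := (mem_filter.1 hS').2
    have h2 := mul_le_mul_of_nonneg_right h1 hp0.le
    calc σ * l = σ * s * p := by rw [← hps]; ring
      _ ≤ _ := h2
  have hds := double_sample E C hCE p hp0 hp1 h (fun S hS => by have := hCp S hS; linarith)
    (fun S hS => by have := hCp S hS; linarith)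
  -- the marginal
  have e1 : ∑ T ∈ X.powerset.filter
            (fun T => ∃ S ∈ H, σ * s ≤ ((S ∩ E).card : ℝ) ∧ Disjoint (S ∩ E) T),
          wt X p T
      = ∑ T ∈ E.powerset.filter (fun T => ∃ S ∈ C, Disjoint S T), wt E p T := by
    have e2 := wt_marg X E hE p (fun T => if ∃ S ∈ C, Disjoint S T then 1 else 0)
    rw [sum_filter, sum_filter]
    refine Eq.trans ?_ (e2.trans ?_)
    · refine sum_congr rfl fun T _ => ?_
      have e3 : (∃ S ∈ H, σ * s ≤ ((S ∩ E).card : ℝ) ∧ Disjoint (S ∩ E) T)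
          ↔ (∃ S ∈ C, Disjoint S (T ∩ E)) := by
        constructor
        · rintro ⟨S, hS, hS1, hS2⟩
          refine ⟨S ∩ E, mem_image.2 ⟨S, mem_filter.2 ⟨hS, hS1⟩, rfl⟩, ?_⟩
          exact disjoint_of_subset_right inter_subset_left hS2
        · rintro ⟨S, hS, hS1⟩
          obtain ⟨S', hS', rfl⟩ := mem_image.1 hS
          rw [mem_filter] at hS'
          refine ⟨S', hS'.1, hS'.2, ?_⟩
          rw [disjoint_left] at hS1 ⊢
          intro x hx hxT
          exact hS1 hx (mem_inter.2 ⟨hxT, (mem_inter.1 hx).2⟩)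
      by_cases h3 : ∃ S ∈ H, σ * s ≤ ((S ∩ E).card : ℝ) ∧ Disjoint (S ∩ E) T
      · rw [if_pos h3, if_pos (e3.1 h3), mul_one]
      · rw [if_neg h3, if_neg (fun h4 => h3 (e3.2 h4)), mul_zero]
    · refine sum_congr rfl fun T _ => ?_
      split_ifs
      · rw [mul_one]
      · rw [mul_zero]
  rw [e1]
  refine hds.trans ?_
  -- the number of traces
  have e4 : ∑ A ∈ E.powerset, wt E (2 * p) A * ((C.image (fun S => S ∩ A)).card : ℝ)
      ≤ ∑ A ∈ E.powerset, wt E (2 * p) A * ((A.card : ℝ) + 1) ^ (2 * m - 2) := by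
    refine sum_le_sum fun A hA => ?_
    rw [mem_powerset] at hA
    refine mul_le_mul_of_nonneg_left ?_ (wt_nonneg E (2 * p) (by linarith) (by linarith) A)
    have e5 : (C.image (fun S => S ∩ A)) ⊆ H.image (fun S => S ∩ A) := by
      intro B hB
      obtain ⟨S, hS, rfl⟩ := mem_image.1 hB
      obtain ⟨S', hS', rfl⟩ := mem_image.1 hS
      refine mem_image.2 ⟨S', (mem_filter.1 hS').1, ?_⟩
      rw [inter_assoc, inter_eq_right.2 hA]
    have e6 := (card_le_card e5).trans (traces_card m hm X H hG A (hA.trans hE))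
    exact_mod_cast e6
  have e7 := hmom α E (2 * p) (by linarith) (by linarith)
  have e8 : 2 * p * (σ / 16) * E.card ≤ σ * l / 4 := by
    have : (E.card : ℝ) ≤ 2 * s := by exact_mod_cast hE2
    calc 2 * p * (σ / 16) * E.card ≤ 2 * p * (σ / 16) * (2 * s) :=
          mul_le_mul_of_nonneg_left this (by positivity)
      _ = σ * (p * s) / 4 := by ring
      _ = σ * l / 4 := by rw [hps]
  have e9 : ∑ A ∈ E.powerset, wt E (2 * p) A * ((C.image (fun S => S ∩ A)).card : ℝ)
      ≤ K * Real.exp (σ * l / 4) :=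
    e4.trans (e7.trans (mul_le_mul_of_nonneg_left (Real.exp_le_exp.2 e8) hK.le))
  have e10 : (1 / 2 : ℝ) ^ h ≤ 2 * Real.exp (-(σ * l / 2) * Real.log 2) := by
    have e11 : (1 / 2 : ℝ) ^ h = Real.exp (-(h : ℝ) * Real.log 2) := by
      rw [neg_mul, Real.exp_neg, mul_comm, ← Real.rpow_def_of_pos (by norm_num),
        Real.rpow_natCast, one_div, inv_pow]
    have e12 : 2 * Real.exp (-(σ * l / 2) * Real.log 2)
        = Real.exp (Real.log 2 + -(σ * l / 2) * Real.log 2) := by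
      rw [Real.exp_add, Real.exp_log (by norm_num)]
    rw [e11, e12, Real.exp_le_exp]
    have := Real.log_pos (show (1 : ℝ) < 2 by norm_num)
    nlinarith
  have e13 : Real.exp (-(σ * l / 2) * Real.log 2) * Real.exp (σ * l / 4)
      ≤ Real.exp (-(0.09 * (σ * l))) := by
    rw [← Real.exp_add, Real.exp_le_exp]
    have := Real.log_two_gt_d9
    nlinarith
  have e14 : 4 * K * Real.exp (-(0.09 * (σ * l))) ≤ δ := by
    rw [Real.exp_neg, ← div_eq_mul_inv, div_le_iff₀ (Real.exp_pos _)]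
    have e15 := Real.add_one_le_exp (0.09 * (σ * l))
    have e16 : δ * (0.09 * (σ * l)) ≤ δ * Real.exp (0.09 * (σ * l)) :=
      mul_le_mul_of_nonneg_left (by linarith) hδ.le
    linarith
  calc 2 * (1 / 2 : ℝ) ^ h *
        ∑ A ∈ E.powerset, wt E (2 * p) A * ((C.image (fun S => S ∩ A)).card : ℝ)
      ≤ 2 * (2 * Real.exp (-(σ * l / 2) * Real.log 2)) * (K * Real.exp (σ * l / 4)) := by
        refine mul_le_mul (by linarith) e9 ?_ (by positivity)
        refine sum_nonneg fun A _ => mul_nonneg ?_ (Nat.cast_nonneg _)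
        exact wt_nonneg E (2 * p) (by linarith) (by linarith) A
    _ = 4 * K * (Real.exp (-(σ * l / 2) * Real.log 2) * Real.exp (σ * l / 4)) := by ring
    _ ≤ 4 * K * Real.exp (-(0.09 * (σ * l))) :=
        mul_le_mul_of_nonneg_left e13 (by positivity)
    _ ≤ δ := e14

end Pool.Agent.Helper34.FQ
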