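import Mathlib

set_option autoImplicit false

namespace Pool.Agent.Helper19.Flags

open Module

variable {K : Type*} [Field K] {V : Type*} [AddCommGroup V] [Module K V]

/-- `At U i v`: the vector `v` lies in `U (i+1)` but not in `U i`. -/
def At (U : ℕ → Submodule K V) (i : ℕ) (v : V) : Prop := v ∈ U (i + 1) ∧ v ∉ U i

/-- complete flags indexed by the natural numbers -/
structure IsFl (d : ℕ) (U : ℕ → Submodule K V) : Prop where
  mono : Monotone U
  fr : ∀ i ≤ d, finrank K (U i) = i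

section basic

variable {U W : ℕ → Submodule K V} {d : ℕ}

theorem At.unique (hU : Monotone U) {i j : ℕ} {v : V} (hi : At U i v) (hj : At U j v) : i = j := by
  rcases lt_trichotomy i j with h | h | h
  · exact absurd (hU (Nat.succ_le_of_lt h) hi.1) hj.2
  · exact h
  · exact absurd (hU (Nat.succ_le_of_lt h) hj.1) hi.2

theorem At.add_mem (hU : Monotone U) {i : ℕ} {v w : V} (hv : At U i v) (hw : w ∈ U i) :
    At U i (v + w) :=
  ⟨(U (i + 1)).add_mem hv.1 (hU (Nat.le_succ i) hw), fun h => hv.2 (by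
    have := (U i).sub_mem h hw
    simpa using this)⟩

theorem At.sub_mem (hU : Monotone U) {i : ℕ} {v w : V} (hv : At U i v) (hw : w ∈ U i) :
    At U i (v - w) := by
  rw [sub_eq_add_neg]
  exact hv.add_mem hU ((U i).neg_mem hw)

theorem At.ne_zero {i : ℕ} {v : V} (hv : At U i v) : v ≠ 0 := by
  rintro rfl
  exact hv.2 (U i).zero_mem

theorem At.lt_of_mem (hU : Monotone U) {i j : ℕ} {v : V} (hv : At U i v) (h : v ∈ U j) : i < j := by
  by_contra hlt
  exact hv.2 (hU (not_lt.mp hlt) h)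

theorem At.mem (hU : Monotone U) {i j : ℕ} {v : V} (hv : At U i v) (h : i < j) : v ∈ U j :=
  hU h hv.1

theorem exists_at_of_mem (h0 : U 0 = ⊥) {j : ℕ} {v : V} (hv : v ∈ U j) (hne : v ≠ 0) :
    ∃ i < j, At U i v := by
  induction j with
  | zero =>
    rw [h0] at hv
    exact absurd ((Submodule.mem_bot K).mp hv) hne
  | succ j ih =>
    by_cases h : v ∈ U j
    · obtain ⟨i, hi, hat⟩ := ih h
      exact ⟨i, hi.trans (Nat.lt_succ_self j), hat⟩
    · exact ⟨j, Nat.lt_succ_self j, hv, h⟩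

variable [FiniteDimensional K V]

theorem IsFl.bot (hU : IsFl d U) : U 0 = ⊥ :=
  Submodule.finrank_eq_zero.mp (hU.fr 0 (Nat.zero_le d))

theorem IsFl.top (hU : IsFl d U) (hd : finrank K V = d) : U d = ⊤ :=
  Submodule.eq_top_of_finrank_eq (by rw [hU.fr d le_rfl, hd])

theorem IsFl.exists_at (hU : IsFl d U) {i : ℕ} (hi : i < d) : ∃ v, At U i v := by
  by_contra hcon
  push Not at hcon
  have hle : U (i + 1) ≤ U i := by
    intro v hv
    by_contra hv'
    exact hcon v ⟨hv, hv'⟩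
  have h1 := Submodule.finrank_mono hle
  rw [hU.fr (i + 1) hi, hU.fr i hi.le] at h1
  omega

theorem IsFl.exists_pos (hU : IsFl d U) (hd : finrank K V = d) {v : V} (hv : v ≠ 0) :
    ∃ i < d, At U i v :=
  exists_at_of_mem hU.bot (by rw [hU.top hd]; trivial) hv

theorem IsFl.exists_smul (hU : IsFl d U) {i : ℕ} (hi : i < d) {v w : V} (hv : At U i v)
    (hw : At U i w) : ∃ c : K, v - c • w ∈ U i := by
  have hle : U i ⊔ Submodule.span K {w} ≤ U (i + 1) :=
    sup_le (hU.mono (Nat.le_succ i)) ((Submodule.span_singleton_le_iff_mem _ _).mpr hw.1)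
  have hlt : U i < U i ⊔ Submodule.span K {w} := by
    refine lt_of_le_of_ne le_sup_left ?_
    intro h
    apply hw.2
    rw [h]
    exact Submodule.mem_sup_right (Submodule.mem_span_singleton_self w)
  have h1 := Submodule.finrank_lt_finrank_of_lt hlt
  have h2 : U i ⊔ Submodule.span K {w} = U (i + 1) := by
    apply Submodule.eq_of_le_of_finrank_le hle
    rw [hU.fr (i + 1) hi]
    rw [hU.fr i hi.le] at h1
    omega
  have hv1 : v ∈ U i ⊔ Submodule.span K {w} := by
    rw [h2]; exact hv.1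
  obtain ⟨x, hx, y, hy, hxy⟩ := Submodule.mem_sup.mp hv1
  obtain ⟨c, rfl⟩ := Submodule.mem_span_singleton.mp hy
  refine ⟨c, ?_⟩
  rw [← hxy]
  simpa using hx

/-- the least `W`-position of a vector with `U`-position `i` -/
noncomputable def mm (U W : ℕ → Submodule K V) (i : ℕ) : ℕ :=
  sInf {j | ∃ v, At U i v ∧ At W j v}

omit [FiniteDimensional K V] in
theorem mm_le {i j : ℕ} {v : V} (hv : At U i v) (hw : At W j v) : mm U W i ≤ j :=
  Nat.sInf_le ⟨v, hv, hw⟩

theorem mm_spec (hU : IsFl d U) (hW : IsFl d W) (hd : finrank K V = d) {i : ℕ} (hi : i < d) :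
    mm U W i < d ∧ ∃ v, At U i v ∧ At W (mm U W i) v := by
  obtain ⟨v, hv⟩ := hU.exists_at hi
  obtain ⟨j, hj, hjv⟩ := hW.exists_pos hd hv.ne_zero
  refine ⟨(mm_le hv hjv).trans_lt hj, ?_⟩
  exact Nat.sInf_mem (s := {j | ∃ v, At U i v ∧ At W j v}) ⟨j, v, hv, hjv⟩

theorem mm_mm (hU : IsFl d U) (hW : IsFl d W) (hd : finrank K V = d) {i : ℕ} (hi : i < d) :
    mm W U (mm U W i) = i := by
  obtain ⟨hlt, v, hv, hvW⟩ := mm_spec hU hW hd hi
  obtain ⟨-, w, hwW, hwU⟩ := mm_spec hW hU hd hlt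
  have hle : mm W U (mm U W i) ≤ i := mm_le hvW hv
  rcases hle.lt_or_eq with h | h
  · exfalso
    obtain ⟨c, hc⟩ := hW.exists_smul hlt hvW hwW
    have h1 : At U i (v - c • w) :=
      hv.sub_mem hU.mono ((U i).smul_mem c (hwU.mem hU.mono h))
    obtain ⟨j, hj, hat⟩ := exists_at_of_mem hW.bot hc h1.ne_zero
    exact absurd (mm_le h1 hat) (not_le.mpr hj)
  · exact h

theorem cross (hU : IsFl d U) (hW : IsFl d W) (hd : finrank K V = d) {i j : ℕ} (hi : i < d)
    (hj : j < d) (h1 : mm U W i < j) (h2 : mm W U j < i) : ∃ v, At U i v ∧ At W j v := by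
  obtain ⟨-, v, hv, hvW⟩ := mm_spec hU hW hd hi
  obtain ⟨-, w, hwW, hwU⟩ := mm_spec hW hU hd hj
  refine ⟨v + w, hv.add_mem hU.mono (hwU.mem hU.mono h2), ?_⟩
  rw [add_comm]
  exact hwW.add_mem hW.mono (hvW.mem hW.mono h1)

/-- two complete flags can be generated by `d` vectors -/
theorem two_cover (hU : IsFl d U) (hW : IsFl d W) (hd : finrank K V = d) :
    ∃ S : Finset V, S.card ≤ d ∧ (∀ i < d, ∃ v ∈ S, At U i v) ∧ (∀ i < d, ∃ v ∈ S, At W i v) := by
  classical
  have hex : ∀ i : Fin d, ∃ v, At U i v ∧ At W (mm U W i) v := fun i =>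
    (mm_spec hU hW hd i.2).2
  choose g hg using hex
  refine ⟨Finset.univ.image g, ?_, ?_, ?_⟩
  · exact Finset.card_image_le.trans (by simp)
  · intro i hi
    exact ⟨g ⟨i, hi⟩, Finset.mem_image_of_mem g (Finset.mem_univ _), (hg ⟨i, hi⟩).1⟩
  · intro i hi
    obtain ⟨hlt, -⟩ := mm_spec hW hU hd hi
    refine ⟨g ⟨mm W U i, hlt⟩, Finset.mem_image_of_mem g (Finset.mem_univ _), ?_⟩
    have := (hg ⟨mm W U i, hlt⟩).2
    rwa [mm_mm hW hU hd hi] at this

theorem one_cover (hU : IsFl d U) :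
    ∃ S : Finset V, S.card ≤ d ∧ (∀ i < d, ∃ v ∈ S, At U i v) := by
  classical
  have hex : ∀ i : Fin d, ∃ v, At U i v := fun i => hU.exists_at i.2
  choose g hg using hex
  refine ⟨Finset.univ.image g, ?_, ?_⟩
  · exact Finset.card_image_le.trans (by simp)
  · intro i hi
    exact ⟨g ⟨i, hi⟩, Finset.mem_image_of_mem g (Finset.mem_univ _), (hg ⟨i, hi⟩)⟩

end basic

end Pool.Agent.Helper19.Flags
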