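import Mathlib
import Pool.Agent.Helper19.FlagBasic

set_option autoImplicit false

namespace Pool.Agent.Helper19.Flags

open Module

/-! ### covering the points of a cycle by consecutive pairs -/

section cyc

variable {X : Type*} [Fintype X] [DecidableEq X]

theorem exists_pow_lt {c : Equiv.Perm X} (hc : c.IsCycle) {x y : X} (hx : x ∈ c.support)
    (hy : y ∈ c.support) : ∃ k < c.support.card, (c ^ k) x = y := by
  obtain ⟨i, hi⟩ := hc.exists_pow_eq (Equiv.Perm.mem_support.mp hx) (Equiv.Perm.mem_support.mp hy)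
  refine ⟨i % orderOf c, ?_, ?_⟩
  · rw [← hc.orderOf]
    exact Nat.mod_lt _ (orderOf_pos c)
  · rw [pow_mod_orderOf]
    exact hi

theorem cycle_cover_all {c : Equiv.Perm X} (hc : c.IsCycle) :
    ∃ E : Finset X, 2 * E.card ≤ c.support.card + c.support.card % 2 ∧
      ∀ y ∈ c.support, ∃ e ∈ E, y = e ∨ y = c e := by
  obtain ⟨x, hx⟩ := hc.nonempty_support
  refine ⟨(Finset.range ((c.support.card + 1) / 2)).image (fun k => (c ^ (2 * k)) x), ?_, ?_⟩
  · have h1 : ((Finset.range ((c.support.card + 1) / 2)).image (fun k => (c ^ (2 * k)) x)).card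
        ≤ (c.support.card + 1) / 2 := Finset.card_image_le.trans (by simp)
    omega
  · intro y hy
    obtain ⟨k, hk, hkx⟩ := exists_pow_lt hc hx hy
    refine ⟨(c ^ (2 * (k / 2))) x, ?_, ?_⟩
    · refine Finset.mem_image.mpr ⟨k / 2, ?_, rfl⟩
      rw [Finset.mem_range]
      omega
    · rcases Nat.even_or_odd' k with ⟨j, hj | hj⟩
      · left
        rw [← hkx]
        congr 2
        omega
      · right
        rw [← hkx, ← Equiv.Perm.mul_apply, ← pow_succ']
        congr 2
        omega

theorem cycle_cover_but {c : Equiv.Perm X} (hc : c.IsCycle) (hodd : Odd c.support.card)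
    {x : X} (hx : x ∈ c.support) :
    ∃ E : Finset X, 2 * E.card + 1 ≤ c.support.card ∧
      ∀ y ∈ c.support, y ≠ x → ∃ e ∈ E, y = e ∨ y = c e := by
  obtain ⟨r, hr⟩ := hodd
  refine ⟨(Finset.range r).image (fun k => (c ^ (2 * k + 1)) x), ?_, ?_⟩
  · have h1 : ((Finset.range r).image (fun k => (c ^ (2 * k + 1)) x)).card
        ≤ r := Finset.card_image_le.trans (by simp)
    omega
  · intro y hy hyx
    obtain ⟨k, hk, hkx⟩ := exists_pow_lt hc hx hy
    have hk0 : k ≠ 0 := by
      rintro rfl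
      exact hyx (by simpa using hkx.symm)
    refine ⟨(c ^ (2 * ((k - 1) / 2) + 1)) x, ?_, ?_⟩
    · refine Finset.mem_image.mpr ⟨(k - 1) / 2, ?_, rfl⟩
      rw [Finset.mem_range]
      omega
    · rcases Nat.even_or_odd' k with ⟨j, hj | hj⟩
      · right
        rw [← hkx, ← Equiv.Perm.mul_apply, ← pow_succ']
        congr 2
        omega
      · left
        rw [← hkx]
        congr 2
        omega

end cyc

section three

variable {K : Type*} [Field K] {V : Type*} [AddCommGroup V] [Module K V]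
variable {d : ℕ}

/-- the vector `v` covers the item `x` -/
def IsAt (U : ZMod 3 → ℕ → Submodule K V) (x : ZMod 3 × Fin d) (v : V) : Prop :=
  At (U x.1) x.2 v

variable [FiniteDimensional K V]

/-- the permutation of the items -/
noncomputable def tau (U : ZMod 3 → ℕ → Submodule K V) (hU : ∀ f, IsFl d (U f))
    (hd : finrank K V = d) : Equiv.Perm (ZMod 3 × Fin d) where
  toFun x := (x.1 + 1, ⟨mm (U x.1) (U (x.1 + 1)) x.2, (mm_spec (hU _) (hU _) hd x.2.2).1⟩)
  invFun x := (x.1 - 1, ⟨mm (U x.1) (U (x.1 - 1)) x.2, (mm_spec (hU _) (hU _) hd x.2.2).1⟩)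
  left_inv x := by
    refine Prod.ext ?_ (Fin.ext ?_)
    · simp
    · simp only [add_sub_cancel_right]
      exact mm_mm (hU _) (hU _) hd x.2.2
  right_inv x := by
    refine Prod.ext ?_ (Fin.ext ?_)
    · simp
    · simp only [sub_add_cancel]
      exact mm_mm (hU _) (hU _) hd x.2.2

variable {U : ZMod 3 → ℕ → Submodule K V} {hU : ∀ f, IsFl d (U f)} {hd : finrank K V = d}

theorem tau_fst (x : ZMod 3 × Fin d) : (tau U hU hd x).1 = x.1 + 1 := rfl

theorem tau_snd (x : ZMod 3 × Fin d) :
    ((tau U hU hd x).2 : ℕ) = mm (U x.1) (U (x.1 + 1)) x.2 := rfl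

theorem tau_ne (x : ZMod 3 × Fin d) : tau U hU hd x ≠ x := by
  intro h
  have h1 := congrArg Prod.fst h
  rw [tau_fst] at h1
  have : (1 : ZMod 3) = 0 := by
    have h2 : x.1 + 1 = x.1 + 0 := by rw [h1, add_zero]
    exact add_left_cancel h2
  exact absurd this (by decide)

theorem tau_cov (x : ZMod 3 × Fin d) : ∃ v, IsAt U x v ∧ IsAt U (tau U hU hd x) v :=
  (mm_spec (hU x.1) (hU (x.1 + 1)) hd x.2.2).2

/-- two cycles are adjacent if one vector covers an item of each of them -/
def Adj (U : ZMod 3 → ℕ → Submodule K V) (c c' : Equiv.Perm (ZMod 3 × Fin d)) : Prop :=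
  ∃ x ∈ c.support, ∃ x' ∈ c'.support, ∃ v, IsAt U x v ∧ IsAt U x' v

/-- odd cycles which are not good triangles -/
def IsO (U : ZMod 3 → ℕ → Submodule K V) (c : Equiv.Perm (ZMod 3 × Fin d)) : Prop :=
  Odd c.support.card ∧ ¬ (c.support.card = 3 ∧ ∃ v, ∀ x ∈ c.support, IsAt U x v)

open Classical in
theorem single_cover {c : Equiv.Perm (ZMod 3 × Fin d)}
    (hc : c ∈ (tau U hU hd).cycleFactorsFinset) :
    ∃ S : Finset V, (∀ x ∈ c.support, ∃ v ∈ S, IsAt U x v) ∧
      2 * S.card ≤ c.support.card + (if IsO U c then 1 else 0) := by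
  obtain ⟨hcyc, hcf⟩ := Equiv.Perm.mem_cycleFactorsFinset_iff.mp hc
  by_cases hg : c.support.card = 3 ∧ ∃ v, ∀ x ∈ c.support, IsAt U x v
  · obtain ⟨h3, v, hv⟩ := hg
    refine ⟨{v}, fun x hx => ⟨v, by simp, hv x hx⟩, ?_⟩
    rw [Finset.card_singleton]
    omega
  · obtain ⟨E, hE, hcov⟩ := cycle_cover_all hcyc
    choose g hg1 hg2 using fun x => tau_cov (hU := hU) (hd := hd) x
    refine ⟨E.image g, ?_, ?_⟩
    · intro x hx
      obtain ⟨e, heE, he⟩ := hcov x hx
      refine ⟨g e, Finset.mem_image_of_mem g heE, ?_⟩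
      rcases he with he | he
      · rw [he]; exact hg1 e
      · have hes : e ∈ c.support := by
          rw [he] at hx
          exact Equiv.Perm.apply_mem_support.mp hx
        rw [he, hcf e hes]
        exact hg2 e
    · have h1 : (E.image g).card ≤ E.card := Finset.card_image_le
      by_cases hodd : Odd c.support.card
      · rw [if_pos ⟨hodd, hg⟩]
        omega
      · rw [if_neg (fun h => hodd h.1)]
        have : c.support.card % 2 = 0 := by
          rcases Nat.mod_two_eq_zero_or_one c.support.card with h | h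
          · exact h
          · exact absurd (Nat.odd_iff.mpr h) hodd
        omega

open Classical in
theorem pair_cover {c c' : Equiv.Perm (ZMod 3 × Fin d)}
    (hc : c ∈ (tau U hU hd).cycleFactorsFinset) (hc' : c' ∈ (tau U hU hd).cycleFactorsFinset)
    (hO : IsO U c) (hO' : IsO U c') (hadj : Adj U c c') :
    ∃ S : Finset V, (∀ x ∈ c.support, ∃ v ∈ S, IsAt U x v) ∧
      (∀ x ∈ c'.support, ∃ v ∈ S, IsAt U x v) ∧
      2 * S.card ≤ c.support.card + c'.support.card := by
  obtain ⟨hcyc, hcf⟩ := Equiv.Perm.mem_cycleFactorsFinset_iff.mp hc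
  obtain ⟨hcyc', hcf'⟩ := Equiv.Perm.mem_cycleFactorsFinset_iff.mp hc'
  obtain ⟨x, hx, x', hx', v, hv, hv'⟩ := hadj
  obtain ⟨E, hE, hcov⟩ := cycle_cover_but hcyc hO.1 hx
  obtain ⟨E', hE', hcov'⟩ := cycle_cover_but hcyc' hO'.1 hx'
  choose g hg1 hg2 using fun x => tau_cov (hU := hU) (hd := hd) x
  refine ⟨insert v (E.image g ∪ E'.image g), ?_, ?_, ?_⟩
  · intro y hy
    by_cases hyx : y = x
    · exact ⟨v, Finset.mem_insert_self _ _, hyx ▸ hv⟩
    · obtain ⟨e, heE, he⟩ := hcov y hy hyx
      refine ⟨g e, Finset.mem_insert_of_mem (Finset.mem_union_left _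
        (Finset.mem_image_of_mem g heE)), ?_⟩
      rcases he with he | he
      · rw [he]; exact hg1 e
      · have hes : e ∈ c.support := by
          rw [he] at hy
          exact Equiv.Perm.apply_mem_support.mp hy
        rw [he, hcf e hes]
        exact hg2 e
  · intro y hy
    by_cases hyx : y = x'
    · exact ⟨v, Finset.mem_insert_self _ _, hyx ▸ hv'⟩
    · obtain ⟨e, heE, he⟩ := hcov' y hy hyx
      refine ⟨g e, Finset.mem_insert_of_mem (Finset.mem_union_right _
        (Finset.mem_image_of_mem g heE)), ?_⟩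
      rcases he with he | he
      · rw [he]; exact hg1 e
      · have hes : e ∈ c'.support := by
          rw [he] at hy
          exact Equiv.Perm.apply_mem_support.mp hy
        rw [he, hcf' e hes]
        exact hg2 e
  · have h1 : (E.image g).card ≤ E.card := Finset.card_image_le
    have h2 : (E'.image g).card ≤ E'.card := Finset.card_image_le
    have h3 : (insert v (E.image g ∪ E'.image g)).card ≤ (E.image g ∪ E'.image g).card + 1 :=
      Finset.card_insert_le _ _
    have h4 : (E.image g ∪ E'.image g).card ≤ (E.image g).card + (E'.image g).card :=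
      Finset.card_union_le _ _
    omega

open Classical in
theorem family_cover (Q : Finset (Equiv.Perm (ZMod 3 × Fin d)))
    (hQ : Q ⊆ (tau U hU hd).cycleFactorsFinset) :
    ∃ (W : Finset (Equiv.Perm (ZMod 3 × Fin d))) (S : Finset V), W ⊆ Q ∧
      (∀ c ∈ W, IsO U c) ∧ (∀ c ∈ W, ∀ c' ∈ W, c ≠ c' → ¬ Adj U c c') ∧
      (∀ c ∈ Q, ∀ x ∈ c.support, ∃ v ∈ S, IsAt U x v) ∧
      2 * S.card ≤ ∑ c ∈ Q, c.support.card + W.card := by
  induction Q using Finset.strongInduction with
  | H Q ih =>
    by_cases hex : ∃ c ∈ Q, ∃ c' ∈ Q, c ≠ c' ∧ IsO U c ∧ IsO U c' ∧ Adj U c c'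
    · obtain ⟨c, hc, c', hc', hne, hO, hO', hadj⟩ := hex
      have hc'' : c' ∈ Q.erase c := Finset.mem_erase.mpr ⟨hne.symm, hc'⟩
      have hss : (Q.erase c).erase c' ⊂ Q :=
        (Finset.erase_ssubset hc'').trans (Finset.erase_ssubset hc)
      obtain ⟨W, S, hW, hWO, hWA, hcov, hcard⟩ := ih _ hss (hss.1.trans hQ)
      obtain ⟨S', hS1, hS2, hS3⟩ := pair_cover (hQ hc) (hQ hc') hO hO' hadj
      refine ⟨W, S ∪ S', hW.trans hss.1, hWO, hWA, ?_, ?_⟩
      · intro e he x hx
        by_cases h1 : e = c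
        · obtain ⟨v, hv, hv'⟩ := hS1 x (h1 ▸ hx)
          exact ⟨v, Finset.mem_union_right _ hv, hv'⟩
        · by_cases h2 : e = c'
          · obtain ⟨v, hv, hv'⟩ := hS2 x (h2 ▸ hx)
            exact ⟨v, Finset.mem_union_right _ hv, hv'⟩
          · obtain ⟨v, hv, hv'⟩ := hcov e (Finset.mem_erase.mpr ⟨h2, Finset.mem_erase.mpr
              ⟨h1, he⟩⟩) x hx
            exact ⟨v, Finset.mem_union_left _ hv, hv'⟩
      · have h1 : (S ∪ S').card ≤ S.card + S'.card := Finset.card_union_le _ _
        have h2 := Finset.add_sum_erase Q (fun c => c.support.card) hc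
        have h3 := Finset.add_sum_erase (Q.erase c) (fun c => c.support.card) hc''
        omega
    · push Not at hex
      choose! Sc hSc1 hSc2 using fun c (hc : c ∈ Q) => single_cover (hQ hc)
      refine ⟨Q.filter (IsO U), Q.biUnion Sc, Finset.filter_subset _ _, ?_, ?_, ?_, ?_⟩
      · intro c hc
        exact (Finset.mem_filter.mp hc).2
      · intro c hc c' hc' hne
        exact hex c (Finset.mem_filter.mp hc).1 c' (Finset.mem_filter.mp hc').1 hne
          (Finset.mem_filter.mp hc).2 (Finset.mem_filter.mp hc').2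
      · intro c hc x hx
        obtain ⟨v, hv, hv'⟩ := hSc1 c hc x hx
        exact ⟨v, Finset.mem_biUnion.mpr ⟨c, hc, hv⟩, hv'⟩
      · have h1 : (Q.biUnion Sc).card ≤ ∑ c ∈ Q, (Sc c).card := Finset.card_biUnion_le
        have h2 : ∑ c ∈ Q, 2 * (Sc c).card ≤
            ∑ c ∈ Q, (c.support.card + (if IsO U c then 1 else 0)) :=
          Finset.sum_le_sum hSc2
        have h3 : ∑ c ∈ Q, (if IsO U c then 1 else 0) = (Q.filter (IsO U)).card := by
          rw [Finset.card_filter]
        rw [← Finset.mul_sum, Finset.sum_add_distrib, h3] at h2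
        omega

end three

end Pool.Agent.Helper19.Flags
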