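import Mathlib
import Pool.Agent.Helper19.FlagThree

set_option autoImplicit false

namespace Pool.Agent.Helper19.Flags

open Module

section count

variable {K : Type*} [Field K] {V : Type*} [AddCommGroup V] [Module K V]
variable {d : ℕ}
variable [FiniteDimensional K V]
variable {U : ZMod 3 → ℕ → Submodule K V} {hU : ∀ f, IsFl d (U f)} {hd : finrank K V = d}

theorem pow_fst {c : Equiv.Perm (ZMod 3 × Fin d)}
    (hc : c ∈ (tau U hU hd).cycleFactorsFinset) {x : ZMod 3 × Fin d} (hx : x ∈ c.support)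
    (k : ℕ) : (c ^ k) x ∈ c.support ∧ ((c ^ k) x).1 = x.1 + k := by
  obtain ⟨hcyc, hcf⟩ := Equiv.Perm.mem_cycleFactorsFinset_iff.mp hc
  induction k with
  | zero => simpa using hx
  | succ k ih =>
    obtain ⟨h1, h2⟩ := ih
    rw [pow_succ', Equiv.Perm.mul_apply]
    refine ⟨Equiv.Perm.apply_mem_support.mpr h1, ?_⟩
    rw [hcf _ h1, tau_fst, h2]
    push_cast
    ring

theorem three_dvd {c : Equiv.Perm (ZMod 3 × Fin d)}
    (hc : c ∈ (tau U hU hd).cycleFactorsFinset) : 3 ∣ c.support.card := by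
  obtain ⟨hcyc, hcf⟩ := Equiv.Perm.mem_cycleFactorsFinset_iff.mp hc
  obtain ⟨x, hx⟩ := hcyc.nonempty_support
  have h1 := (pow_fst hc hx c.support.card).2
  rw [← hcyc.orderOf, pow_orderOf_eq_one, hcyc.orderOf, Equiv.Perm.one_apply] at h1
  have h2 : ((c.support.card : ℕ) : ZMod 3) = 0 := by
    have h3 : x.1 + (c.support.card : ZMod 3) = x.1 + 0 := by rw [← h1, add_zero]
    exact add_left_cancel h3
  exact (ZMod.natCast_eq_zero_iff _ _).mp h2

theorem exists_tri {c : Equiv.Perm (ZMod 3 × Fin d)}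
    (hc : c ∈ (tau U hU hd).cycleFactorsFinset) (h3 : c.support.card = 3) :
    ∃ T : ZMod 3 → Fin d, (∀ f, (f, T f) ∈ c.support) ∧ (∀ x ∈ c.support, x = (x.1, T x.1)) := by
  obtain ⟨hcyc, hcf⟩ := Equiv.Perm.mem_cycleFactorsFinset_iff.mp hc
  obtain ⟨x, hx⟩ := hcyc.nonempty_support
  have hex : ∀ f : ZMod 3, ∃ y ∈ c.support, y.1 = f := by
    intro f
    obtain ⟨h1, h2⟩ := pow_fst hc hx (f - x.1).val
    refine ⟨_, h1, ?_⟩
    rw [h2, ZMod.natCast_zmod_val]
    ring
  choose Y hY1 hY2 using hex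
  have hinj : Function.Injective Y := fun f g hfg => by
    rw [← hY2 f, ← hY2 g, hfg]
  have himg : Finset.univ.image Y = c.support := by
    apply Finset.eq_of_subset_of_card_le
    · intro y hy
      obtain ⟨f, -, rfl⟩ := Finset.mem_image.mp hy
      exact hY1 f
    · rw [Finset.card_image_of_injective _ hinj, h3]
      simp [ZMod.card]
  have hYf : ∀ f, Y f = (f, (Y f).2) := fun f => Prod.ext (hY2 f) rfl
  refine ⟨fun f => (Y f).2, fun f => ?_, fun y hy => ?_⟩
  · have := hY1 f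
    rw [hYf f] at this
    exact this
  · rw [← himg] at hy
    obtain ⟨f, -, rfl⟩ := Finset.mem_image.mp hy
    rw [hY2 f]
    exact hYf f

theorem zmod3_cases (f g : ZMod 3) (h : f ≠ g) : g = f + 1 ∨ f = g + 1 := by
  revert f g
  decide

theorem tri_mm {c : Equiv.Perm (ZMod 3 × Fin d)}
    (hc : c ∈ (tau U hU hd).cycleFactorsFinset) {T : ZMod 3 → Fin d}
    (hT1 : ∀ f, (f, T f) ∈ c.support) (hT2 : ∀ x ∈ c.support, x = (x.1, T x.1))
    {f g : ZMod 3} (hfg : f ≠ g) : mm (U f) (U g) (T f) = T g := by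
  obtain ⟨hcyc, hcf⟩ := Equiv.Perm.mem_cycleFactorsFinset_iff.mp hc
  have key : ∀ f, mm (U f) (U (f + 1)) (T f) = T (f + 1) := by
    intro f
    have h1 : c (f, T f) ∈ c.support := Equiv.Perm.apply_mem_support.mpr (hT1 f)
    have h2 := hT2 _ h1
    rw [hcf _ (hT1 f)] at h2
    have h3 := congrArg (fun z : ZMod 3 × Fin d => (z.2 : ℕ)) h2
    simpa only [tau_snd, tau_fst] using h3
  rcases zmod3_cases f g hfg with h | h
  · subst h
    exact key f
  · subst h
    rw [← key g]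
    exact mm_mm (hU _) (hU _) hd (T g).2

theorem peak_exists (hU : ∀ f, IsFl d (U f)) (hd : finrank K V = d) {T : ZMod 3 → Fin d}
    (hT : ∀ f g, f ≠ g → mm (U f) (U g) (T f) = T g)
    (hbad : ¬ ∃ v, ∀ f, At (U f) (T f) v) (f : ZMod 3) :
    ∃ ρ : Fin d, (∃ v, (∀ g, g ≠ f → At (U g) (T g) v) ∧ At (U f) ρ v) ∧
      (∀ (r : ℕ) (v : V), (∀ g, g ≠ f → At (U g) (T g) v) → At (U f) r v → (ρ : ℕ) ≤ r) ∧
      T f < ρ ∧ ∀ g, g ≠ f → mm (U f) (U g) ρ < T g := by
  have hne1 : f + 1 ≠ f := by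
    revert f; decide
  have hne2 : f + 2 ≠ f := by
    revert f; decide
  have hne12 : f + 1 ≠ f + 2 := by
    revert f; decide
  have hcases : ∀ g, g ≠ f → g = f + 1 ∨ g = f + 2 := by
    revert f; decide
  obtain ⟨-, v0, hv01, hv02⟩ := mm_spec (hU (f + 1)) (hU (f + 2)) hd (T (f + 1)).2
  rw [hT _ _ hne12] at hv02
  have hv0 : ∀ g, g ≠ f → At (U g) (T g) v0 := by
    intro g hg
    rcases hcases g hg with rfl | rfl
    · exact hv01
    · exact hv02
  obtain ⟨r0, hr0, hr0at⟩ := (hU f).exists_pos hd hv01.ne_zero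
  have hne : {r : ℕ | ∃ v, (∀ g, g ≠ f → At (U g) (T g) v) ∧ At (U f) r v}.Nonempty :=
    ⟨r0, v0, hv0, hr0at⟩
  have hmem := Nat.sInf_mem hne
  have hmin : ∀ r v, (∀ g, g ≠ f → At (U g) (T g) v) → At (U f) r v →
      sInf {r : ℕ | ∃ v, (∀ g, g ≠ f → At (U g) (T g) v) ∧ At (U f) r v} ≤ r :=
    fun r v h1 h2 => Nat.sInf_le ⟨v, h1, h2⟩
  have hlt := (hmin r0 v0 hv0 hr0at).trans_lt hr0
  generalize sInf {r : ℕ | ∃ v, (∀ g, g ≠ f → At (U g) (T g) v) ∧ At (U f) r v} = ρ at *
  obtain ⟨v, hv1, hv2⟩ := hmem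
  refine ⟨⟨ρ, hlt⟩, ⟨v, hv1, hv2⟩, hmin, ?_, ?_⟩
  · have h1 : mm (U (f + 1)) (U f) (T (f + 1)) ≤ ρ := mm_le (hv1 _ hne1) hv2
    rw [hT _ _ hne1] at h1
    rcases h1.lt_or_eq with h | h
    · exact h
    · exfalso
      apply hbad
      refine ⟨v, fun g => ?_⟩
      by_cases hg : g = f
      · rw [hg, h]; exact hv2
      · exact hv1 g hg
  · intro g hg
    have h1 : mm (U f) (U g) ρ ≤ T g := mm_le hv2 (hv1 g hg)
    rcases h1.lt_or_eq with h | h
    · exact h
    · exfalso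
      have h2 := mm_mm (hU f) (hU g) hd hlt
      rw [h, hT g f hg] at h2
      apply hbad
      refine ⟨v, fun g' => ?_⟩
      by_cases hg' : g' = f
      · rw [hg', h2]; exact hv2
      · exact hv1 g' hg'

theorem tri_comp (hU : ∀ f, IsFl d (U f)) (hd : finrank K V = d)
    {c c' : Equiv.Perm (ZMod 3 × Fin d)} {T T' : ZMod 3 → Fin d}
    (hT : ∀ f g, f ≠ g → mm (U f) (U g) (T f) = T g)
    (hT' : ∀ f g, f ≠ g → mm (U f) (U g) (T' f) = T' g)
    (hc : ∀ f, (f, T f) ∈ c.support) (hc' : ∀ f, (f, T' f) ∈ c'.support)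
    (hna : ¬ Adj U c c') (hne : ∀ f, T f ≠ T' f) {f g : ZMod 3} (h : T f < T' f) :
    T g < T' g := by
  by_cases hfg : g = f
  · rw [hfg]; exact h
  · by_contra hcon
    have h1 : T' g < T g := lt_of_le_of_ne (not_lt.mp hcon) (fun he => hne g he.symm)
    obtain ⟨v, hv, hv'⟩ := cross (hU g) (hU f) hd (T g).2 (T' f).2
      (by rw [hT g f hfg]; exact h) (by rw [hT' f g (fun he => hfg he.symm)]; exact h1)
    exact hna ⟨_, hc g, _, hc' f, v, hv, hv'⟩

theorem eq_of_mem_support {c c' : Equiv.Perm (ZMod 3 × Fin d)}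
    (hc : c ∈ (tau U hU hd).cycleFactorsFinset) (hc' : c' ∈ (tau U hU hd).cycleFactorsFinset)
    {x : ZMod 3 × Fin d} (hx : x ∈ c.support) (hx' : x ∈ c'.support) : c = c' := by
  rw [Equiv.Perm.cycle_is_cycleOf hx hc, Equiv.Perm.cycle_is_cycleOf hx' hc']

open Classical in
theorem card_bound {W : Finset (Equiv.Perm (ZMod 3 × Fin d))}
    (hW : W ⊆ (tau U hU hd).cycleFactorsFinset) (hWO : ∀ c ∈ W, IsO U c)
    (hWA : ∀ c ∈ W, ∀ c' ∈ W, c ≠ c' → ¬ Adj U c c') : 3 * W.card ≤ d := by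
  rcases Nat.eq_zero_or_pos d with hd0 | hd0
  · have hWe : W = ∅ := by
      rw [Finset.eq_empty_iff_forall_notMem]
      intro c hc
      obtain ⟨x, -⟩ := (Equiv.Perm.mem_cycleFactorsFinset_iff.mp (hW hc)).1.nonempty_support
      have := x.2.2
      omega
    rw [hWe]
    simp
  have : Nonempty (Fin d) := ⟨⟨0, hd0⟩⟩
  set W1 := W.filter (fun c => c.support.card = 3) with hW1
  have hW1W : ∀ c ∈ W1, c ∈ W := fun c hc => (Finset.mem_filter.mp hc).1
  have hW13 : ∀ c ∈ W1, c.support.card = 3 := fun c hc => (Finset.mem_filter.mp hc).2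
  have hex : ∀ c ∈ W1, ∃ T : ZMod 3 → Fin d, (∀ f, (f, T f) ∈ c.support) ∧
      (∀ x ∈ c.support, x = (x.1, T x.1)) := fun c hc =>
    exists_tri (hW (hW1W c hc)) (hW13 c hc)
  choose! T hT1 hT2 using hex
  have hTm : ∀ c ∈ W1, ∀ f g, f ≠ g → mm (U f) (U g) (T c f) = T c g := fun c hc f g hfg =>
    tri_mm (hW (hW1W c hc)) (hT1 c hc) (hT2 c hc) hfg
  have hTbad : ∀ c ∈ W1, ¬ ∃ v, ∀ f, At (U f) (T c f) v := by
    rintro c hc ⟨v, hv⟩
    apply (hWO c (hW1W c hc)).2
    refine ⟨hW13 c hc, v, fun x hx => ?_⟩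
    rw [hT2 c hc x hx]
    exact hv x.1
  have hpk := fun c (hc : c ∈ W1) (f : ZMod 3) =>
    peak_exists hU hd (hTm c hc) (hTbad c hc) f
  choose! ρ hρ1 hρ2 hρ3 hρ4 using hpk
  have hTne : ∀ c ∈ W1, ∀ c' ∈ W1, c ≠ c' → ∀ f, T c f ≠ T c' f := by
    intro c hc c' hc' hne f he
    apply hne
    refine eq_of_mem_support (hW (hW1W c hc)) (hW (hW1W c' hc')) (hT1 c hc f) ?_
    rw [he]
    exact hT1 c' hc' f
  have hcomp : ∀ c ∈ W1, ∀ c' ∈ W1, c ≠ c' → ∀ f g, T c f < T c' f → T c g < T c' g := by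
    intro c hc c' hc' hne f g h
    exact tri_comp hU hd (hTm c hc) (hTm c' hc') (hT1 c hc) (hT1 c' hc')
      (hWA c (hW1W c hc) c' (hW1W c' hc') hne) (hTne c hc c' hc' hne) h
  -- injectivity of the peaks
  have hinj1 : ∀ c ∈ W1, ∀ c' ∈ W1, c ≠ c' → ∀ f, T c f < T c' f → ρ c f ≠ ρ c' f := by
    intro c hc c' hc' hne f h he
    obtain ⟨v, hv1, hv2⟩ := hρ1 c hc f
    obtain ⟨v', hv1', hv2'⟩ := hρ1 c' hc' f
    rw [he] at hv2
    obtain ⟨a, ha⟩ := (hU f).exists_smul (ρ c' f).2 hv2' hv2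
    have hat : ∀ g, g ≠ f → At (U g) (T c' g) (v' - a • v) := by
      intro g hg
      have hlt := hcomp c hc c' hc' hne f g h
      exact (hv1' g hg).sub_mem (hU g).mono
        (Submodule.smul_mem _ _ ((hv1 g hg).mem (hU g).mono hlt))
    have hne1 : f + 1 ≠ f := by
      clear * -
      revert f; decide
    obtain ⟨r, hr, hrat⟩ := exists_at_of_mem (hU f).bot ha (hat _ hne1).ne_zero
    exact absurd (hρ2 c' hc' f r _ hat hrat) (not_le.mpr hr)
  have hinj : ∀ c ∈ W1, ∀ c' ∈ W1, ∀ f, ρ c f = ρ c' f → c = c' := by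
    intro c hc c' hc' f he
    by_contra hne
    rcases lt_or_gt_of_ne (hTne c hc c' hc' hne f) with h | h
    · exact hinj1 c hc c' hc' hne f h he
    · exact hinj1 c' hc' c hc (fun h' => hne h'.symm) f h he.symm
  set R : Finset (ZMod 3 × Fin d) := Finset.univ \ W.biUnion (fun c => c.support) with hR
  set P : Finset (ZMod 3 × Fin d) :=
    (W1 ×ˢ (Finset.univ : Finset (ZMod 3))).image (fun p => (p.2, ρ p.1 p.2)) with hP
  have hPcard : P.card = W1.card * 3 := by
    rw [hP, Finset.card_image_of_injOn, Finset.card_product]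
    · simp [ZMod.card]
    · rintro ⟨c, f⟩ hcf ⟨c', f'⟩ hcf' he
      simp only [Prod.mk.injEq] at he
      obtain ⟨rfl, he2⟩ := he
      have h1 : c ∈ W1 := (Finset.mem_product.mp hcf).1
      have h2 : c' ∈ W1 := (Finset.mem_product.mp hcf').1
      rw [hinj c h1 c' h2 f he2]
  have hsupp : ∀ c ∈ W, ∀ x, tau U hU hd x ∈ c.support → x ∈ c.support := by
    intro c hc x hx
    have h1 := Equiv.Perm.mem_cycleFactorsFinset_support (hW hc) x
    exact h1.mp hx
  have hPR : P ⊆ R := by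
    intro y hy
    obtain ⟨⟨c, f⟩, hcf, rfl⟩ := Finset.mem_image.mp hy
    have hc : c ∈ W1 := (Finset.mem_product.mp hcf).1
    simp only [hR, Finset.mem_sdiff, Finset.mem_univ, true_and, Finset.mem_biUnion, not_exists,
      not_and]
    intro c'' hc'' hmem
    have hne : c ≠ c'' := by
      rintro rfl
      have h1 := hT2 c hc _ hmem
      have h2 : ρ c f = T c f := congrArg Prod.snd h1
      exact absurd (hρ3 c hc f) (by rw [h2]; exact lt_irrefl _)
    have hne1 : f + 1 ≠ f := by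
      clear * -
      revert f; decide
    obtain ⟨v, hv, hv'⟩ := cross (hU (f + 1)) (hU f) hd (T c (f + 1)).2 (ρ c f).2
      (by rw [hTm c hc _ _ hne1]; exact hρ3 c hc f) (hρ4 c hc f _ hne1)
    exact hWA c (hW1W c hc) c'' hc'' hne ⟨_, hT1 c hc (f + 1), _, hmem, v, hv, hv'⟩
  have hPR' : P.image (tau U hU hd) ⊆ R := by
    intro y hy
    obtain ⟨x, hx, rfl⟩ := Finset.mem_image.mp hy
    have h1 := hPR hx
    simp only [hR, Finset.mem_sdiff, Finset.mem_univ, true_and, Finset.mem_biUnion, not_exists,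
      not_and] at h1 ⊢
    intro c hc hmem
    exact h1 c hc (hsupp c hc x hmem)
  have hdisj : Disjoint P (P.image (tau U hU hd)) := by
    rw [Finset.disjoint_left]
    intro y hy hy'
    obtain ⟨x, hx, hxy⟩ := Finset.mem_image.mp hy'
    obtain ⟨⟨c, f⟩, hcf, hcx⟩ := Finset.mem_image.mp hx
    obtain ⟨⟨c', f'⟩, hcf', hcy⟩ := Finset.mem_image.mp hy
    have hc : c ∈ W1 := (Finset.mem_product.mp hcf).1
    have hc' : c' ∈ W1 := (Finset.mem_product.mp hcf').1
    simp only at hcx hcy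
    subst hcx
    subst hcy
    have e1 : f' = f + 1 := by
      have := congrArg Prod.fst hxy
      rw [tau_fst] at this
      exact this.symm
    subst e1
    have e2 : mm (U f) (U (f + 1)) (ρ c f) = ρ c' (f + 1) := by
      have := congrArg (fun z : ZMod 3 × Fin d => (z.2 : ℕ)) hxy
      simpa only [tau_snd] using this
    have hne1 : f + 1 ≠ f := by
      clear * -
      revert f; decide
    have h1 := hρ4 c hc f (f + 1) hne1
    rw [e2] at h1
    have h2 := hρ3 c' hc' (f + 1)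
    have h3 := hρ4 c' hc' (f + 1) f hne1.symm
    rw [← e2, mm_mm (hU _) (hU _) hd (ρ c f).2] at h3
    have h4 := hρ3 c hc f
    have h5 : T c f < T c' f := lt_trans h4 (Fin.lt_def.mpr h3)
    have h6 : T c' (f + 1) < T c (f + 1) := lt_trans h2 (Fin.lt_def.mpr h1)
    by_cases hcc : c = c'
    · subst hcc
      exact lt_irrefl _ h5
    · exact absurd (hcomp c hc c' hc' hcc f (f + 1) h5) (not_lt.mpr h6.le)
  have hcount : P.card + (P.image (tau U hU hd)).card ≤ R.card := by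
    rw [← Finset.card_union_of_disjoint hdisj]
    exact Finset.card_le_card (Finset.union_subset hPR hPR')
  rw [Finset.card_image_of_injective _ (tau U hU hd).injective] at hcount
  have hbi : (W.biUnion (fun c => c.support)).card = ∑ c ∈ W, c.support.card := by
    apply Finset.card_biUnion
    intro c hc c' hc' hne
    rw [Function.onFun, Finset.disjoint_left]
    intro x hx hx'
    exact hne (eq_of_mem_support (hW hc) (hW hc') hx hx')
  have hRc : R.card + ∑ c ∈ W, c.support.card = 3 * d := by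
    rw [← hbi, hR, Finset.card_sdiff_add_card_eq_card (Finset.subset_univ _)]
    simp [ZMod.card]
  have hsum : 3 * W1.card + 9 * (W.filter (fun c => ¬ c.support.card = 3)).card ≤
      ∑ c ∈ W, c.support.card := by
    rw [← Finset.sum_filter_add_sum_filter_not W (fun c => c.support.card = 3)]
    refine Nat.add_le_add ?_ ?_
    · have : ∑ c ∈ W1, c.support.card = ∑ c ∈ W1, 3 := Finset.sum_congr rfl hW13
      rw [← hW1, this]
      simp [mul_comm]
    · have h9 : ∀ c ∈ W.filter (fun c => ¬ c.support.card = 3), 9 ≤ c.support.card := by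
        intro c hc
        obtain ⟨hcW, hc3⟩ := Finset.mem_filter.mp hc
        obtain ⟨k, hk⟩ := three_dvd (hW hcW)
        obtain ⟨j, hj⟩ := (hWO c hcW).1
        omega
      calc 9 * (W.filter (fun c => ¬ c.support.card = 3)).card
          = ∑ c ∈ W.filter (fun c => ¬ c.support.card = 3), 9 := by simp [mul_comm]
        _ ≤ _ := Finset.sum_le_sum h9
  have hsplit : W1.card + (W.filter (fun c => ¬ c.support.card = 3)).card = W.card :=
    Finset.card_filter_add_card_filter_not _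
  omega

/-- three complete flags in dimension `d` are generated by at most `5d/3` vectors -/
theorem three_cover (hU : ∀ f, IsFl d (U f)) (hd : finrank K V = d) :
    ∃ S : Finset V, 3 * S.card ≤ 5 * d ∧ ∀ f, ∀ i < d, ∃ v ∈ S, At (U f) i v := by
  classical
  obtain ⟨W, S, hW, hWO, hWA, hcov, hcard⟩ :=
    family_cover (U := U) (hU := hU) (hd := hd) _ (Finset.Subset.refl _)
  have hb := card_bound hW hWO hWA
  refine ⟨S, ?_, ?_⟩
  · have hbi : ((tau U hU hd).cycleFactorsFinset.biUnion (fun c => c.support)).card =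
        ∑ c ∈ (tau U hU hd).cycleFactorsFinset, c.support.card := by
      apply Finset.card_biUnion
      intro c hc c' hc' hne
      rw [Function.onFun, Finset.disjoint_left]
      intro x hx hx'
      exact hne (eq_of_mem_support hc hc' hx hx')
    have h1 : ((tau U hU hd).cycleFactorsFinset.biUnion (fun c => c.support)).card ≤ 3 * d := by
      refine (Finset.card_le_univ _).trans ?_
      simp [ZMod.card]
    omega
  · intro f i hi
    have hmem : (tau U hU hd).cycleOf (f, ⟨i, hi⟩) ∈ (tau U hU hd).cycleFactorsFinset :=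
      Equiv.Perm.cycleOf_mem_cycleFactorsFinset_iff.mpr
        (Equiv.Perm.mem_support.mpr (tau_ne _))
    obtain ⟨v, hv, hv'⟩ := hcov _ hmem (f, ⟨i, hi⟩) (by
      rw [Equiv.Perm.mem_support, Equiv.Perm.cycleOf_apply_self]
      exact tau_ne _)
    exact ⟨v, hv, hv'⟩

end count

end Pool.Agent.Helper19.Flags
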