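import Mathlib

set_option autoImplicit false

namespace Pool.Agent.Helper19.Flags

/-- A complete flag in `K^d`: a chain of subspaces `U 0 ≤ U 1 ≤ ... ≤ U d` of `K^d`
with `dim (U i) = i` for every `i`. -/
structure CompleteFlag (K : Type*) [Field K] (d : ℕ) where
  /-- the members of the flag -/
  U : Fin (d + 1) → Submodule K (Fin d → K)
  /-- they form a chain -/
  mono : Monotone U
  /-- the `i`-th member has dimension `i` -/
  finrank_eq : ∀ i, Module.finrank K (U i) = i

/-- A finite set `S` of vectors generates the flag `F` if every member of the flag is spanned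
by some subset of `S`. -/
def Generates {K : Type*} [Field K] {d : ℕ} (S : Finset (Fin d → K))
    (F : CompleteFlag K d) : Prop :=
  ∀ i, ∃ T : Finset (Fin d → K), T ⊆ S ∧
    Submodule.span K (T : Set (Fin d → K)) = F.U i

/-- `muK K m d` is the least `n` such that every `m`-tuple of complete flags in `K^d` is
simultaneously generated by some set of at most `n` vectors. -/
noncomputable def muK (K : Type*) [Field K] (m d : ℕ) : ℕ :=
  sInf {n : ℕ | ∀ F : Fin m → CompleteFlag K d,
    ∃ S : Finset (Fin d → K), S.card ≤ n ∧ ∀ j, Generates S (F j)}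

/-- The function `μ(m,d)`: it is `d` if `m = 1` or `d = 1`, it is `md/2` for even `m`, and
`md/2 + ⌊2d/3⌋ - d/2 = (m-1)d/2 + ⌊2d/3⌋` for odd `m`. -/
def mu (m d : ℕ) : ℕ :=
  if m = 1 ∨ d = 1 then d else if Even m then m * d / 2 else (m - 1) * d / 2 + 2 * d / 3

end Pool.Agent.Helper19.Flags
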