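import Mathlib
import Pool.Agent.Helper19.FlagDefs
import Pool.Agent.Helper19.FlagCount

set_option autoImplicit false

namespace Pool.Agent.Helper19.Flags

open Module

section gen

variable {K : Type*} [Field K] {d : ℕ}

/-- the flag as a function on the natural numbers -/
def CompleteFlag.chain (F : CompleteFlag K d) (i : ℕ) : Submodule K (Fin d → K) :=
  F.U ⟨min i d, Nat.lt_succ_of_le (min_le_right i d)⟩

theorem CompleteFlag.chain_eq (F : CompleteFlag K d) {i : ℕ} (hi : i < d + 1) :
    F.chain i = F.U ⟨i, hi⟩ := by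
  unfold CompleteFlag.chain
  congr 2
  omega

theorem CompleteFlag.isFl (F : CompleteFlag K d) : IsFl d F.chain where
  mono := by
    intro i j hij
    apply F.mono
    rw [Fin.mk_le_mk]
    exact min_le_min_right d hij
  fr := by
    intro i hi
    rw [F.chain_eq (Nat.lt_succ_of_le hi), F.finrank_eq]

theorem generates_iff (S : Finset (Fin d → K)) (F : CompleteFlag K d) :
    Generates S F ↔ ∀ i < d, ∃ v ∈ S, At F.chain i v := by
  classical
  constructor
  · intro h i hi
    obtain ⟨T, hTS, hT⟩ := h ⟨i + 1, Nat.succ_lt_succ hi⟩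
    by_contra hcon
    push Not at hcon
    have hle : Submodule.span K (T : Set (Fin d → K)) ≤ F.chain i := by
      rw [Submodule.span_le]
      intro v hv
      by_contra hv'
      apply hcon v (hTS hv)
      refine ⟨?_, hv'⟩
      rw [F.chain_eq (Nat.succ_lt_succ hi), ← hT]
      exact Submodule.subset_span hv
    have h1 := Submodule.finrank_mono hle
    rw [hT, F.finrank_eq, F.isFl.fr i hi.le] at h1
    simp only at h1
    omega
  · intro h i
    have key : ∀ j ≤ d, Submodule.span K
        ((S.filter (fun v => v ∈ F.chain j) : Finset (Fin d → K)) : Set (Fin d → K)) =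
        F.chain j := by
      intro j hj
      induction j with
      | zero =>
        rw [F.isFl.bot]
        rw [Submodule.span_eq_bot]
        intro v hv
        simpa using (Finset.mem_filter.mp (Finset.mem_coe.mp hv)).2
      | succ j ih =>
        have ih' := ih (Nat.le_of_succ_le hj)
        obtain ⟨v, hvS, hv⟩ := h j hj
        have hle : Submodule.span K
            ((S.filter (fun v => v ∈ F.chain (j + 1)) : Finset (Fin d → K)) :
              Set (Fin d → K)) ≤ F.chain (j + 1) := by
          rw [Submodule.span_le]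
          intro w hw
          exact (Finset.mem_filter.mp (Finset.mem_coe.mp hw)).2
        apply Submodule.eq_of_le_of_finrank_le hle
        rw [F.isFl.fr (j + 1) hj]
        have hlt : F.chain j < Submodule.span K
            ((S.filter (fun v => v ∈ F.chain (j + 1)) : Finset (Fin d → K)) :
              Set (Fin d → K)) := by
          refine lt_of_le_of_ne ?_ ?_
          · rw [← ih']
            apply Submodule.span_mono
            intro w hw
            have hw' := Finset.mem_filter.mp (Finset.mem_coe.mp hw)
            exact Finset.mem_coe.mpr (Finset.mem_filter.mpr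
              ⟨hw'.1, F.isFl.mono (Nat.le_succ j) hw'.2⟩)
          · intro he
            apply hv.2
            rw [he]
            apply Submodule.subset_span
            exact Finset.mem_coe.mpr (Finset.mem_filter.mpr ⟨hvS, hv.1⟩)
        have h1 := Submodule.finrank_lt_finrank_of_lt hlt
        rw [F.isFl.fr j (Nat.le_of_succ_le hj)] at h1
        exact h1
    refine ⟨S.filter (fun v => v ∈ F.chain i), Finset.filter_subset _ _, ?_⟩
    rw [key i (Nat.le_of_lt_succ i.2), F.chain_eq i.2]

end gen

section multi

variable {K : Type*} [Field K] {V : Type*} [AddCommGroup V] [Module K V]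
variable {d : ℕ} [FiniteDimensional K V] {ι : Type*} {U : ι → ℕ → Submodule K V}

theorem even_cover (hU : ∀ f, IsFl d (U f)) (hd : finrank K V = d) (k : ℕ) :
    ∀ s : Finset ι, s.card = 2 * k → ∃ S : Finset V, S.card ≤ k * d ∧
      ∀ f ∈ s, ∀ i < d, ∃ v ∈ S, At (U f) i v := by
  classical
  induction k with
  | zero =>
    intro s hs
    rw [mul_zero, Finset.card_eq_zero] at hs
    subst hs
    exact ⟨∅, by simp, by simp⟩
  | succ k ih =>
    intro s hs
    obtain ⟨x, hx⟩ : s.Nonempty := Finset.card_pos.mp (by omega)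
    have h1 : (s.erase x).card = 2 * k + 1 := by
      rw [Finset.card_erase_of_mem hx, hs]; omega
    obtain ⟨y, hy⟩ : (s.erase x).Nonempty := Finset.card_pos.mp (by omega)
    have h2 : ((s.erase x).erase y).card = 2 * k := by
      rw [Finset.card_erase_of_mem hy, h1]; omega
    obtain ⟨S, hS, hcov⟩ := ih _ h2
    obtain ⟨S', hS', hcx, hcy⟩ := two_cover (hU x) (hU y) hd
    refine ⟨S ∪ S', ?_, ?_⟩
    · have := Finset.card_union_le S S'
      rw [add_mul, one_mul]
      omega
    · intro f hf i hi
      by_cases hfx : f = x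
      · subst hfx
        obtain ⟨v, hv, hv'⟩ := hcx i hi
        exact ⟨v, Finset.mem_union_right _ hv, hv'⟩
      · by_cases hfy : f = y
        · subst hfy
          obtain ⟨v, hv, hv'⟩ := hcy i hi
          exact ⟨v, Finset.mem_union_right _ hv, hv'⟩
        · obtain ⟨v, hv, hv'⟩ := hcov f (Finset.mem_erase.mpr
            ⟨hfy, Finset.mem_erase.mpr ⟨hfx, hf⟩⟩) i hi
          exact ⟨v, Finset.mem_union_left _ hv, hv'⟩

theorem odd_cover (hU : ∀ f, IsFl d (U f)) (hd : finrank K V = d) (k : ℕ) :
    ∀ s : Finset ι, s.card = 2 * k + 3 → ∃ S : Finset V, S.card ≤ k * d + 5 * d / 3 ∧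
      ∀ f ∈ s, ∀ i < d, ∃ v ∈ S, At (U f) i v := by
  classical
  intro s hs
  obtain ⟨t, hts, ht⟩ := Finset.exists_subset_card_eq (s := s) (n := 2 * k) (by omega)
  have h3 : (s \ t).card = 3 := by
    rw [Finset.card_sdiff_of_subset hts]; omega
  obtain ⟨x, y, z, -, -, -, hxyz⟩ := Finset.card_eq_three.mp h3
  obtain ⟨S, hS, hcov⟩ := even_cover hU hd k t ht
  obtain ⟨S', hS', hcov'⟩ := three_cover
    (U := fun f : ZMod 3 => U (if f = 0 then x else if f = 1 then y else z))
    (fun f => hU _) hd
  refine ⟨S ∪ S', ?_, ?_⟩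
  · have := Finset.card_union_le S S'
    omega
  · intro f hf i hi
    by_cases hft : f ∈ t
    · obtain ⟨v, hv, hv'⟩ := hcov f hft i hi
      exact ⟨v, Finset.mem_union_left _ hv, hv'⟩
    · have hf' : f ∈ s \ t := Finset.mem_sdiff.mpr ⟨hf, hft⟩
      rw [hxyz] at hf'
      simp only [Finset.mem_insert, Finset.mem_singleton] at hf'
      rcases hf' with rfl | rfl | rfl
      · obtain ⟨v, hv, hv'⟩ := hcov' 0 i hi
        refine ⟨v, Finset.mem_union_right _ hv, ?_⟩
        simpa using hv'
      · obtain ⟨v, hv, hv'⟩ := hcov' 1 i hi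
        refine ⟨v, Finset.mem_union_right _ hv, ?_⟩
        have h10 : (1 : ZMod 3) ≠ 0 := by decide
        simpa [h10] using hv'
      · obtain ⟨v, hv, hv'⟩ := hcov' 2 i hi
        refine ⟨v, Finset.mem_union_right _ hv, ?_⟩
        have h20 : (2 : ZMod 3) ≠ 0 := by decide
        have h21 : (2 : ZMod 3) ≠ 1 := by decide
        simpa [h20, h21] using hv'

end multi

theorem upper_bound (K : Type*) [Field K] (m d : ℕ) (hm : 1 ≤ m) (hd : 2 ≤ d)
    (F : Fin m → CompleteFlag K d) :
    ∃ S : Finset (Fin d → K), S.card ≤ mu m d ∧ ∀ j, Generates S (F j) := by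
  have hfr : finrank K (Fin d → K) = d := by simp
  unfold mu
  by_cases h1 : m = 1
  · subst h1
    obtain ⟨S, hS, hcov⟩ := one_cover (F 0).isFl
    refine ⟨S, by simpa using hS, fun j => ?_⟩
    rw [generates_iff, Subsingleton.elim j 0]
    exact hcov
  · rw [if_neg (by omega)]
    by_cases he : Even m
    · rw [if_pos he]
      obtain ⟨k, hk⟩ := he
      obtain ⟨S, hS, hcov⟩ := even_cover (fun f => (F f).isFl) hfr k Finset.univ
        (by rw [Finset.card_univ, Fintype.card_fin]; omega)
      refine ⟨S, ?_, fun j => ?_⟩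
      · have : m * d / 2 = k * d := by
          rw [hk, ← two_mul, mul_assoc, Nat.mul_div_cancel_left _ (by norm_num)]
        omega
      · rw [generates_iff]
        exact hcov j (Finset.mem_univ _)
    · rw [if_neg he]
      rw [Nat.not_even_iff_odd] at he
      obtain ⟨k, hk⟩ := he
      obtain ⟨S, hS, hcov⟩ := odd_cover (fun f => (F f).isFl) hfr (k - 1) Finset.univ
        (by rw [Finset.card_univ, Fintype.card_fin]; omega)
      refine ⟨S, ?_, fun j => ?_⟩
      · have h2 : (m - 1) * d / 2 = k * d := by
          rw [hk, Nat.add_sub_cancel, mul_assoc, Nat.mul_div_cancel_left _ (by norm_num)]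
        have h3 : k * d = (k - 1) * d + d := by
          obtain ⟨r, rfl⟩ : ∃ r, k = r + 1 := ⟨k - 1, by omega⟩
          simp [add_mul]
        omega
      · rw [generates_iff]
        exact hcov j (Finset.mem_univ _)

end Pool.Agent.Helper19.Flags
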