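import Mathlib
import Pool.Agent.Helper19.FlagGen

set_option autoImplicit false

namespace Pool.Agent.Helper19.Flags

open Module

section std

variable {K : Type*} [Field K]

/-- the standard flag of `K^n` -/
def Std (K : Type*) [Field K] (n s : ℕ) : Submodule K (Fin n → K) where
  carrier := {x | ∀ j : Fin n, s ≤ j → x j = 0}
  zero_mem' := by intro j _; rfl
  add_mem' := by
    intro x y hx hy j hj
    rw [Pi.add_apply, hx j hj, hy j hj, add_zero]
  smul_mem' := by
    intro c x hx j hj
    rw [Pi.smul_apply, hx j hj, smul_zero]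

theorem mem_std {n s : ℕ} {x : Fin n → K} : x ∈ Std K n s ↔ ∀ j : Fin n, s ≤ j → x j = 0 :=
  Iff.rfl

theorem std_mono {n : ℕ} : Monotone (Std K n) := by
  intro s t hst x hx j hj
  exact hx j (hst.trans hj)

theorem finrank_std {n s : ℕ} (hs : s ≤ n) : finrank K (Std K n s) = s := by
  let e : Std K n s ≃ₗ[K] (Fin s → K) :=
    { toFun := fun x j => x.1 (Fin.castLE hs j)
      map_add' := fun x y => rfl
      map_smul' := fun c x => rfl
      invFun := fun y => ⟨fun j => if h : (j : ℕ) < s then y ⟨j, h⟩ else 0, by
        intro j hj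
        simp only
        rw [dif_neg (not_lt.mpr hj)]⟩
      left_inv := by
        intro x
        ext j
        simp only
        by_cases h : (j : ℕ) < s
        · rw [dif_pos h]; rfl
        · rw [dif_neg h, x.2 j (not_lt.mp h)]
      right_inv := by
        intro y
        ext j
        simp }
  rw [e.finrank_eq]
  simp

/-- the pull-back of the standard flag -/
def pullFlag {d n : ℕ} (hdn : d = n) (h : (Fin d → K) ≃ₗ[K] (Fin n → K)) : CompleteFlag K d where
  U i := (Std K n i).comap h.toLinearMap
  mono := by
    intro i j hij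
    exact Submodule.comap_mono (std_mono hij)
  finrank_eq := by
    intro i
    have h1 : (Std K n (i : ℕ)).comap h.toLinearMap = (Std K n i).map h.symm.toLinearMap := by
      ext x
      simp only [Submodule.mem_comap, Submodule.mem_map]
      constructor
      · intro hx
        exact ⟨_, hx, by simp⟩
      · rintro ⟨y, hy, rfl⟩
        simpa using hy
    rw [h1, LinearEquiv.finrank_map_eq, finrank_std]
    have := i.2
    omega

theorem pullFlag_at {d n : ℕ} (hdn : d = n) (h : (Fin d → K) ≃ₗ[K] (Fin n → K)) {s : ℕ}
    (hs : s < n) {v : Fin d → K} (hv : At (pullFlag hdn h).chain s v) :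
    h v ⟨s, hs⟩ ≠ 0 ∧ ∀ j : Fin n, s < j → h v j = 0 := by
  obtain ⟨h1, h2⟩ := hv
  rw [CompleteFlag.chain_eq _ (by omega)] at h1 h2
  have h1' : ∀ j : Fin n, s + 1 ≤ j → h v j = 0 := h1
  have h2' : ¬ ∀ j : Fin n, s ≤ j → h v j = 0 := h2
  refine ⟨fun h0 => h2' fun j hj => ?_, fun j hj => h1' j hj⟩
  rcases hj.lt_or_eq with hlt | heq
  · exact h1' j hlt
  · have : j = ⟨s, hs⟩ := Fin.ext heq.symm
    rw [this]
    exact h0

end std

section lower

variable {K : Type*} [Field K] {L : Type*} [CommRing L] [Algebra K L] [Module.Finite K L]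

theorem lower_main {a b m d : ℕ} (hL : finrank K L = a) (hb : b ≤ a) (t : Fin m → L)
    (ht : ∀ i j, i ≠ j → IsUnit (t i - t j)) (hd : d = a + b + a) :
    ∃ F : Fin m → CompleteFlag K d, ∀ S : Finset (Fin d → K), (∀ j, Generates S (F j)) →
      m * a + b * ((m + 1) / 2) ≤ S.card := by
  classical
  -- coordinates on `L`
  let lam : L ≃ₗ[K] (Fin a → K) :=
    LinearEquiv.ofFinrankEq L (Fin a → K) (by rw [hL]; simp)
  -- an injection of `K^b` into `L`
  let bet : (Fin b → K) →ₗ[K] L :=
    lam.symm.toLinearMap ∘ₗ
      { toFun := fun x j => if h : (j : ℕ) < b then x ⟨j, h⟩ else 0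
        map_add' := by
          intro x y
          ext j
          by_cases h : (j : ℕ) < b <;> simp [h]
        map_smul' := by
          intro c x
          ext j
          by_cases h : (j : ℕ) < b <;> simp [h] }
  have hbet : ∀ x, bet x = 0 → x = 0 := by
    intro x hx
    have h1 : (fun j : Fin a => if h : (j : ℕ) < b then x ⟨j, h⟩ else 0) = 0 := by
      have : lam (bet x) = lam 0 := by rw [hx]
      simpa [bet] using this
    ext j
    have h2 := congrFun h1 ⟨j, j.2.trans_le hb⟩
    simpa using h2
  -- the functionals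
  let phi : Fin m → (L × L × (Fin b → K)) →ₗ[K] L := fun i =>
    { toFun := fun w => w.1 + t i * w.2.1 + t i * t i * bet w.2.2
      map_add' := by
        intro x y
        simp only [Prod.fst_add, Prod.snd_add, map_add]
        ring
      map_smul' := by
        intro c x
        simp only [Prod.smul_fst, Prod.smul_snd, map_smul, RingHom.id_apply, smul_add,
          mul_smul_comm] }
  have hphi : ∀ i w, phi i w = w.1 + t i * w.2.1 + t i * t i * bet w.2.2 := fun i w => rfl
  let G0 : Fin m → (L × L × (Fin b → K)) →ₗ[K] (Fin (a + b + a) → K) := fun i =>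
    { toFun := fun w => Fin.append (Fin.append (lam w.2.1) w.2.2) (lam (phi i w))
      map_add' := by
        intro x y
        ext j
        refine Fin.addCases (fun j => ?_) (fun j => ?_) j
        · refine Fin.addCases (fun j => ?_) (fun j => ?_) j
          · simp
          · simp
        · simp
      map_smul' := by
        intro c x
        ext j
        refine Fin.addCases (fun j => ?_) (fun j => ?_) j
        · refine Fin.addCases (fun j => ?_) (fun j => ?_) j
          · simp
          · simp
        · simp }
  have hG0 : ∀ i w, G0 i w = Fin.append (Fin.append (lam w.2.1) w.2.2) (lam (phi i w)) :=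
    fun i w => rfl
  have hinj : ∀ i, Function.Injective (G0 i) := by
    intro i
    rw [← LinearMap.ker_eq_bot, LinearMap.ker_eq_bot']
    intro w hw
    rw [hG0] at hw
    have h1 : w.2.1 = 0 := by
      have h : lam w.2.1 = lam 0 := by
        ext j
        have := congrFun hw (Fin.castAdd a (Fin.castAdd b j))
        simpa using this
      exact lam.injective h
    have h2 : w.2.2 = 0 := by
      ext j
      have := congrFun hw (Fin.castAdd a (Fin.natAdd a j))
      simpa using this
    have h3 : phi i w = 0 := by
      have h : lam (phi i w) = lam 0 := by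
        ext j
        have := congrFun hw (Fin.natAdd (a + b) j)
        simpa using this
      exact lam.injective h
    rw [hphi, h1, h2, map_zero, mul_zero, mul_zero, add_zero, add_zero] at h3
    exact Prod.ext h3 (Prod.ext h1 h2)
  have hdim : finrank K (L × L × (Fin b → K)) = finrank K (Fin (a + b + a) → K) := by
    simp only [Module.finrank_prod, hL, Module.finrank_fin_fun]
    omega
  let G : Fin m → (L × L × (Fin b → K)) ≃ₗ[K] (Fin (a + b + a) → K) := fun i =>
    LinearMap.linearEquivOfInjective (G0 i) (hinj i) hdim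
  have hG : ∀ i w, G i w = Fin.append (Fin.append (lam w.2.1) w.2.2) (lam (phi i w)) :=
    fun i w => rfl
  let e : (Fin d → K) ≃ₗ[K] (L × L × (Fin b → K)) :=
    LinearEquiv.ofFinrankEq _ _ (by rw [hdim]; simp [hd])
  refine ⟨fun i => pullFlag hd (e.trans (G i)), fun S hS => ?_⟩
  -- consequences of generation
  have hcov : ∀ (i : Fin m) (s : ℕ) (hs : s < a + b + a), ∃ v ∈ S,
      G i (e v) ⟨s, hs⟩ ≠ 0 ∧ ∀ j : Fin (a + b + a), s < j → G i (e v) j = 0 := by
    intro i s hs
    obtain ⟨v, hv, hv'⟩ := (generates_iff S _).mp (hS i) s (by omega)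
    exact ⟨v, hv, pullFlag_at hd (e.trans (G i)) hs hv'⟩
  -- block one
  have hblock1 : ∀ (p : Fin m × Fin a), ∃ v ∈ S, (e v).2.2 = 0 ∧ phi p.1 (e v) = 0 ∧
      lam (e v).2.1 p.2 ≠ 0 ∧ ∀ j : Fin a, p.2 < j → lam (e v).2.1 j = 0 := by
    rintro ⟨i, s⟩
    obtain ⟨v, hv, h1, h2⟩ := hcov i s (by omega)
    rw [hG] at h1
    have h1' : Fin.append (Fin.append (lam (e v).2.1) (e v).2.2) (lam (phi i (e v)))
        (Fin.castAdd a (Fin.castAdd b s)) ≠ 0 := h1
    rw [Fin.append_left, Fin.append_left] at h1'
    refine ⟨v, hv, ?_, ?_, h1', ?_⟩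
    · ext j
      have := h2 (Fin.castAdd a (Fin.natAdd a j)) (by simp; omega)
      rw [hG, Fin.append_left, Fin.append_right] at this
      exact this
    · have h : lam (phi i (e v)) = lam 0 := by
        ext j
        have := h2 (Fin.natAdd (a + b) j) (by simp; omega)
        rw [hG, Fin.append_right] at this
        simpa using this
      exact lam.injective h
    · intro j hj
      have := h2 (Fin.castAdd a (Fin.castAdd b j)) (by simpa using hj)
      rw [hG, Fin.append_left, Fin.append_left] at this
      exact this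
  -- block two
  have hblock2 : ∀ (i : Fin m) (s : Fin b), ∃ v ∈ S, phi i (e v) = 0 ∧
      (e v).2.2 s ≠ 0 ∧ ∀ j : Fin b, s < j → (e v).2.2 j = 0 := by
    intro i s
    obtain ⟨v, hv, h1, h2⟩ := hcov i (a + s) (by omega)
    rw [hG] at h1
    have h1' : Fin.append (Fin.append (lam (e v).2.1) (e v).2.2) (lam (phi i (e v)))
        (Fin.castAdd a (Fin.natAdd a s)) ≠ 0 := h1
    rw [Fin.append_left, Fin.append_right] at h1'
    refine ⟨v, hv, ?_, h1', ?_⟩
    · have h : lam (phi i (e v)) = lam 0 := by
        ext j
        have := h2 (Fin.natAdd (a + b) j) (by simp; omega)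
        rw [hG, Fin.append_right] at this
        simpa using this
      exact lam.injective h
    · intro j hj
      have := h2 (Fin.castAdd a (Fin.natAdd a j)) (by simpa using hj)
      rw [hG, Fin.append_left, Fin.append_right] at this
      exact this
  choose v1 hv1S hv1a hv1b hv1c hv1d using hblock1
  choose v2 hv2S hv2a hv2b hv2c using hblock2
  -- general position
  have hpos2 : ∀ i j : Fin m, i ≠ j → ∀ w : L × L × (Fin b → K), w.2.2 = 0 → phi i w = 0 →
      phi j w = 0 → w.2.1 = 0 := by
    intro i j hij w hw hi hj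
    rw [hphi, hw, map_zero, mul_zero, add_zero] at hi hj
    have h1 : (t i - t j) * w.2.1 = 0 := by
      have : (t i - t j) * w.2.1 = (w.1 + t i * w.2.1) - (w.1 + t j * w.2.1) := by ring
      rw [this, hi, hj, sub_zero]
    exact (ht i j hij).mul_right_eq_zero.mp h1
  have hpos3 : ∀ i j k : Fin m, i ≠ j → i ≠ k → j ≠ k → ∀ w : L × L × (Fin b → K),
      phi i w = 0 → phi j w = 0 → phi k w = 0 → w.2.2 = 0 := by
    intro i j k hij hik hjk w hi hj hk
    rw [hphi] at hi hj hk
    have h1 : (t i - t j) * (w.2.1 + (t i + t j) * bet w.2.2) = 0 := by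
      have : (t i - t j) * (w.2.1 + (t i + t j) * bet w.2.2) =
        (w.1 + t i * w.2.1 + t i * t i * bet w.2.2) -
          (w.1 + t j * w.2.1 + t j * t j * bet w.2.2) := by ring
      rw [this, hi, hj, sub_zero]
    have h2 : (t i - t k) * (w.2.1 + (t i + t k) * bet w.2.2) = 0 := by
      have : (t i - t k) * (w.2.1 + (t i + t k) * bet w.2.2) =
        (w.1 + t i * w.2.1 + t i * t i * bet w.2.2) -
          (w.1 + t k * w.2.1 + t k * t k * bet w.2.2) := by ring
      rw [this, hi, hk, sub_zero]
    have h1' := (ht i j hij).mul_right_eq_zero.mp h1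
    have h2' := (ht i k hik).mul_right_eq_zero.mp h2
    have h3 : (t j - t k) * bet w.2.2 = 0 := by
      have : (t j - t k) * bet w.2.2 = (w.2.1 + (t i + t j) * bet w.2.2) -
        (w.2.1 + (t i + t k) * bet w.2.2) := by ring
      rw [this, h1', h2', sub_zero]
    exact hbet _ ((ht j k hjk).mul_right_eq_zero.mp h3)
  -- first family of vectors
  have hinj1 : Function.Injective v1 := by
    rintro ⟨i, s⟩ ⟨j, r⟩ hij
    have h1 := hv1a (i, s)
    have h2 := hv1b (i, s)
    have h3 := hv1b (j, r)
    have h4 := hv1c (i, s)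
    have h5 := hv1c (j, r)
    have h6 := hv1d (i, s)
    have h7 := hv1d (j, r)
    rw [← hij] at h3 h5 h7
    simp only at h2 h3 h4 h5 h6 h7
    by_cases hne : i = j
    · subst hne
      rcases lt_trichotomy s r with h | h | h
      · exact absurd (h6 r h) h5
      · rw [h]
      · exact absurd (h7 s h) h4
    · exfalso
      apply h4
      rw [hpos2 i j hne _ h1 h2 h3]
      simp
  have hcard1 : (Finset.univ.image v1).card = m * a := by
    rw [Finset.card_image_of_injective _ hinj1]
    simp
  -- second family of vectors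
  have hcard2 : ∀ s : Fin b, (m + 1) / 2 ≤ (Finset.univ.image (fun i => v2 i s)).card := by
    intro s
    have h1 : (Finset.univ : Finset (Fin m)).card ≤
        2 * (Finset.univ.image (fun i => v2 i s)).card := by
      apply Finset.card_le_mul_card_image
      intro v hv
      by_contra hcon
      obtain ⟨i, hi, j, hj, k, hk, hij, hik, hjk⟩ := Finset.two_lt_card.mp (not_le.mp hcon)
      have hi' := (Finset.mem_filter.mp hi).2
      have hj' := (Finset.mem_filter.mp hj).2
      have hk' := (Finset.mem_filter.mp hk).2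
      have e1 := hv2a i s
      have e2 := hv2a j s
      have e3 := hv2a k s
      have e4 := hv2b i s
      rw [hi'] at e1 e4
      rw [hj'] at e2
      rw [hk'] at e3
      apply e4
      rw [hpos3 i j k hij hik hjk _ e1 e2 e3]
      rfl
    rw [Finset.card_univ, Fintype.card_fin] at h1
    omega
  have hdisj2 : ∀ s r : Fin b, s ≠ r → Disjoint (Finset.univ.image (fun i => v2 i s))
      (Finset.univ.image (fun i => v2 i r)) := by
    intro s r hsr
    rw [Finset.disjoint_left]
    intro v hv hv'
    obtain ⟨i, -, hi⟩ := Finset.mem_image.mp hv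
    obtain ⟨j, -, hj⟩ := Finset.mem_image.mp hv'
    have e1 := hv2b i s
    have e2 := hv2c i s
    have e3 := hv2b j r
    have e4 := hv2c j r
    rw [hi] at e1 e2
    rw [hj] at e3 e4
    rcases lt_or_gt_of_ne hsr with h | h
    · exact e3 (e2 r h)
    · exact e1 (e4 s h)
  have hdisj12 : Disjoint (Finset.univ.image v1)
      (Finset.univ.biUnion (fun s : Fin b => Finset.univ.image (fun i => v2 i s))) := by
    rw [Finset.disjoint_left]
    intro v hv hv'
    obtain ⟨p, -, hp⟩ := Finset.mem_image.mp hv
    obtain ⟨s, -, hs⟩ := Finset.mem_biUnion.mp hv'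
    obtain ⟨i, -, hi⟩ := Finset.mem_image.mp hs
    have e1 := hv1a p
    have e2 := hv2b i s
    rw [hp] at e1
    rw [hi, e1] at e2
    exact e2 rfl
  have hcard3 : b * ((m + 1) / 2) ≤
      (Finset.univ.biUnion (fun s : Fin b => Finset.univ.image (fun i => v2 i s))).card := by
    rw [Finset.card_biUnion (fun s _ r _ hsr => hdisj2 s r hsr)]
    calc b * ((m + 1) / 2) = ∑ s : Fin b, (m + 1) / 2 := by simp
      _ ≤ _ := Finset.sum_le_sum (fun s _ => hcard2 s)
  have hsub : Finset.univ.image v1 ∪
      (Finset.univ.biUnion (fun s : Fin b => Finset.univ.image (fun i => v2 i s))) ⊆ S := by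
    apply Finset.union_subset
    · intro v hv
      obtain ⟨p, -, rfl⟩ := Finset.mem_image.mp hv
      exact hv1S p
    · intro v hv
      obtain ⟨s, -, hs⟩ := Finset.mem_biUnion.mp hv
      obtain ⟨i, -, rfl⟩ := Finset.mem_image.mp hs
      exact hv2S i s
  have hfin := Finset.card_le_card hsub
  rw [Finset.card_union_of_disjoint hdisj12, hcard1] at hfin
  omega

end lower

end Pool.Agent.Helper19.Flags
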