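import Mathlib
import Pool.Agent.Helper19.FlagDefs
import Pool.Agent.Helper19.FlagLower

set_option autoImplicit false

namespace Pool.Agent.Helper19.Flags

open Module

universe u

theorem lower_bound (K : Type u) [Field K] {a b m d : ℕ} (ha : 1 ≤ a) (hb : b ≤ a)
    (hd : d = a + b + a) (h : (m : Cardinal.{u}) ≤ Cardinal.mk K ^ a) :
    ∃ F : Fin m → CompleteFlag K d, ∀ S : Finset (Fin d → K), (∀ j, Generates S (F j)) →
      m * a + b * ((m + 1) / 2) ≤ S.card := by
  classical
  rcases finite_or_infinite K with hK | hK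
  · obtain ⟨p, hp⟩ := CharP.exists K
    have : Fact p.Prime := ⟨(CharP.char_is_prime_or_zero K p).resolve_right (by
      rintro rfl
      have := CharP.charP_to_charZero K
      exact not_finite K)⟩
    have : NeZero a := ⟨by omega⟩
    have hcard : Nat.card (FiniteField.Extension K p a) = Nat.card K ^ a :=
      FiniteField.natCard_extension K p a
    have hm : m ≤ Nat.card (FiniteField.Extension K p a) := by
      rw [hcard]
      have h1 : Cardinal.mk K = (Nat.card K : Cardinal.{u}) := (Nat.cast_card).symm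
      rw [h1] at h
      exact_mod_cast h
    have := Fintype.ofFinite (FiniteField.Extension K p a)
    rw [Nat.card_eq_fintype_card] at hm
    obtain ⟨t⟩ := Function.Embedding.nonempty_of_card_le (α := Fin m)
      (β := FiniteField.Extension K p a) (by rw [Fintype.card_fin]; exact hm)
    refine lower_main (L := FiniteField.Extension K p a)
      (FiniteField.finrank_extension K p a) hb t ?_ hd
    intro i j hij
    rw [isUnit_iff_ne_zero, sub_ne_zero]
    exact fun he => hij (t.injective he)
  · refine lower_main (L := Fin a → K) (by simp) hb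
      (fun i _ => Infinite.natEmbedding K i) ?_ hd
    intro i j hij
    rw [Pi.isUnit_iff]
    intro x
    rw [isUnit_iff_ne_zero]
    simp only [Pi.sub_apply]
    rw [sub_ne_zero]
    intro he
    exact hij (Fin.ext ((Infinite.natEmbedding K).injective he))

theorem lower_one (K : Type u) [Field K] (d : ℕ) (F : CompleteFlag K d)
    (S : Finset (Fin d → K)) (hS : Generates S F) : d ≤ S.card := by
  rw [generates_iff] at hS
  have h : ∀ i : Fin d, ∃ v ∈ S, At F.chain i v := fun i => hS i i.2
  choose g hg1 hg2 using h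
  have hinj : Function.Injective g := by
    intro i j hij
    have h1 := hg2 i
    rw [hij] at h1
    exact Fin.ext (h1.unique F.isFl.mono (hg2 j))
  calc d = (Finset.univ.map ⟨g, hinj⟩).card := by simp
    _ ≤ S.card := Finset.card_le_card (by
      intro v hv
      obtain ⟨i, -, rfl⟩ := Finset.mem_map.mp hv
      exact hg1 i)

theorem exists_bad (K : Type u) [Field K] (m d : ℕ) (hm : 1 ≤ m) (hd : 2 ≤ d)
    (h : (m : Cardinal.{u}) ≤ Cardinal.mk K ^ ((d + 2) / 3)) :
    ∃ F : Fin m → CompleteFlag K d, ∀ S : Finset (Fin d → K), (∀ j, Generates S (F j)) →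
      mu m d ≤ S.card := by
  unfold mu
  by_cases h1 : m = 1
  · subst h1
    refine ⟨fun _ => pullFlag rfl (LinearEquiv.refl K _), fun S hS => ?_⟩
    rw [if_pos (Or.inl rfl)]
    exact lower_one K d _ S (hS 0)
  · rw [if_neg (by omega)]
    by_cases he : Even m
    · rw [if_pos he]
      obtain ⟨k, hk⟩ := he
      obtain ⟨F, hF⟩ := lower_bound K (a := d / 2) (b := d % 2) (m := m) (d := d) (by omega)
        (by omega) (by omega) (h.trans (pow_le_pow_right₀
          (Cardinal.one_le_iff_ne_zero.mpr (Cardinal.mk_ne_zero K)) (by omega)))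
      refine ⟨F, fun S hS => le_trans (le_of_eq ?_) (hF S hS)⟩
      have e1 : (m + 1) / 2 = k := by omega
      rw [e1]
      have e2 : m * d = 2 * (m * (d / 2) + d % 2 * k) := by
        have e3 : d = 2 * (d / 2) + d % 2 := (Nat.div_add_mod d 2).symm
        calc m * d = m * (2 * (d / 2) + d % 2) := by rw [← e3]
          _ = 2 * (m * (d / 2) + d % 2 * k) := by rw [hk]; ring
      rw [e2, Nat.mul_div_cancel_left _ (by norm_num)]
    · rw [if_neg he]
      rw [Nat.not_even_iff_odd] at he
      obtain ⟨k, hk⟩ := he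
      obtain ⟨F, hF⟩ := lower_bound K (a := (d + 2) / 3) (b := d - 2 * ((d + 2) / 3)) (m := m)
        (d := d) (by omega) (by omega) (by omega) h
      refine ⟨F, fun S hS => le_trans (le_of_eq ?_) (hF S hS)⟩
      have e1 : (m + 1) / 2 = k + 1 := by omega
      rw [e1]
      obtain ⟨a, b, ha, hb, hab⟩ : ∃ a b, (d + 2) / 3 = a ∧ d - 2 * ((d + 2) / 3) = b ∧
        d = a + b + a := ⟨_, _, rfl, rfl, by omega⟩
      rw [hb, ha]
      have e2 : (m - 1) * d / 2 = k * d := by
        rw [hk, Nat.add_sub_cancel, mul_assoc, Nat.mul_div_cancel_left _ (by norm_num)]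
      have e3 : 2 * d / 3 = a + b := by omega
      rw [e2, e3, hk]
      rw [hab]
      ring

theorem flag_main (K : Type u) [Field K] (m d : ℕ) (hm : 1 ≤ m) (hd : 2 ≤ d)
    (h : (m : Cardinal.{u}) ≤ Cardinal.mk K ^ ((d + 2) / 3)) : muK K m d = mu m d := by
  have hmem : mu m d ∈ {n : ℕ | ∀ F : Fin m → CompleteFlag K d,
      ∃ S : Finset (Fin d → K), S.card ≤ n ∧ ∀ j, Generates S (F j)} :=
    fun F => upper_bound K m d hm hd F
  apply le_antisymm
  · exact Nat.sInf_le hmem
  · have h2 := Nat.sInf_mem (⟨_, hmem⟩ : Set.Nonempty _)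
    obtain ⟨F, hF⟩ := exists_bad K m d hm hd h
    obtain ⟨S, hS1, hS2⟩ := h2 F
    exact (hF S hS2).trans hS1

/-- For every `m ≥ 1` there is `d₀ ≤ 3 ⌈log₂ m⌉ + 2` such that for every field `K` and every
`d ≥ d₀` the least number `muK K m d` of vectors which suffices to generate simultaneously any
`m` complete flags in `K^d` equals `mu m d`. -/
theorem flag_final (m : ℕ) (hm : 1 ≤ m) :
    ∃ d₀ : ℕ, d₀ ≤ 3 * Nat.clog 2 m + 2 ∧
      ∀ (K : Type u) [Field K] (d : ℕ), d₀ ≤ d → muK K m d = mu m d := by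
  refine ⟨3 * Nat.clog 2 m + 2, le_rfl, fun K _ d hd => flag_main K m d hm (by omega) ?_⟩
  have h1 : m ≤ 2 ^ Nat.clog 2 m := Nat.le_pow_clog (by norm_num) m
  have h2 : m ≤ 2 ^ ((d + 2) / 3) :=
    h1.trans (Nat.pow_le_pow_right (by norm_num) (by omega))
  have h3 : (m : Cardinal.{u}) ≤ (2 : Cardinal.{u}) ^ ((d + 2) / 3) := by
    exact_mod_cast h2
  have h4 : (2 : Cardinal.{u}) ≤ Cardinal.mk K := Cardinal.two_le_iff.mpr ⟨0, 1, zero_ne_one⟩
  exact h3.trans (pow_le_pow_left' h4 _)

end Pool.Agent.Helper19.Flags
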